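import Mathlib
import Pool.Agent.Work.MP_392c8e_co.Facts

/-!
# Boundaries of sets of faces contain cycles
-/

namespace Pool.Agent.Arb392

open Finset Pool.Agent.Sub392

set_option linter.unusedSectionVars false

variable {V : Type} [Fintype V] [DecidableEq V] {G : SimpleGraph V} [DecidableRel G.Adj]

/-- the flow across the boundary of a set of faces -/
noncomputable def bd (R : Rot G) (S : Finset R.Face) (d : G.Dart) : ℤ :=
  (if R.face d ∈ S then 1 else 0) - (if R.face d.symm ∈ S then 1 else 0)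

theorem bd_symm (R : Rot G) (S : Finset R.Face) (d : G.Dart) : bd R S d.symm = -bd R S d := by
  rw [bd, bd, SimpleGraph.Dart.symm_symm]
  ring

theorem sum_bd_vertex (R : Rot G) (S : Finset R.Face) (v : V) :
    ∑ d : G.Dart with d.fst = v, bd R S d = 0 := by
  simp only [bd, sum_sub_distrib]
  rw [sub_eq_zero]
  symm
  refine Finset.sum_bij (fun d _ => R.rot d) ?_ ?_ ?_ ?_
  · intro d hd
    simp only [mem_filter, mem_univ, true_and] at hd ⊢
    rw [R.fst_rot, hd]
  · intro a _ b _ h
    exact R.rot.injective h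
  · intro d hd
    refine ⟨R.rot.symm d, ?_, by simp⟩
    simp only [mem_filter, mem_univ, true_and] at hd ⊢
    rw [← R.fst_rot, Equiv.apply_symm_apply, hd]
  · intro d _
    rw [R.face_rot]

theorem sum_bd_set (R : Rot G) (S : Finset R.Face) (X : Finset V) :
    ∑ d : G.Dart with d.fst ∈ X ∧ d.snd ∉ X, bd R S d = 0 := by
  have h1 : ∑ d : G.Dart with d.fst ∈ X, bd R S d = 0 := by
    have h2 : ∑ v ∈ X, ∑ d : G.Dart with d.fst = v, bd R S d = 0 :=
      Finset.sum_eq_zero fun v _ => sum_bd_vertex R S v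
    rw [← h2]
    rw [← Finset.sum_fiberwise_of_maps_to (s := univ.filter fun d : G.Dart => d.fst ∈ X) (t := X)
      (g := fun d => d.fst) (fun d hd => by simpa using hd)]
    refine Finset.sum_congr rfl fun v hv => ?_
    refine Finset.sum_congr ?_ fun _ _ => rfl
    ext d
    simp only [mem_filter, mem_univ, true_and]
    constructor
    · exact fun h => h.2
    · intro h; exact ⟨h ▸ hv, h⟩
  have h3 : ∑ d : G.Dart with d.fst ∈ X ∧ d.snd ∈ X, bd R S d = 0 := by
    have h4 : ∑ d : G.Dart with d.fst ∈ X ∧ d.snd ∈ X, bd R S d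
        = ∑ d : G.Dart with d.fst ∈ X ∧ d.snd ∈ X, -bd R S d := by
      refine Finset.sum_bij (fun d _ => d.symm) ?_ ?_ ?_ ?_
      · intro d hd
        simp only [mem_filter, mem_univ, true_and] at hd ⊢
        exact ⟨hd.2, hd.1⟩
      · intro a _ b _ h
        have := congrArg SimpleGraph.Dart.symm h
        simpa using this
      · intro d hd
        refine ⟨d.symm, ?_, by simp⟩
        simp only [mem_filter, mem_univ, true_and] at hd ⊢
        exact ⟨hd.2, hd.1⟩
      · intro d _
        rw [bd_symm, neg_neg]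
    rw [Finset.sum_neg_distrib] at h4
    linarith
  have h5 := Finset.sum_filter_add_sum_filter_not (univ.filter fun d : G.Dart => d.fst ∈ X)
    (fun d : G.Dart => d.snd ∈ X) (bd R S)
  rw [Finset.filter_filter, Finset.filter_filter, h1, h3, zero_add] at h5
  exact h5

/-- **A proper nonempty set of faces has at least girth many boundary edges.** -/
theorem le_cut (R : Rot G) (hc : G.Connected) {g : ℕ} (hg : (g : ℕ∞) ≤ G.egirth)
    {S : Finset R.Face} (h1 : S ≠ ∅) (h2 : S ≠ univ) : g ≤ R.cut S := by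
  classical
  -- a boundary dart
  have h3 : R.cut S ≠ 0 := fun h => (R.cut_zero hc h).elim h1 h2
  rw [Rot.cut, Finset.card_ne_zero] at h3
  obtain ⟨d0, hd0⟩ := h3
  simp only [mem_filter, mem_univ, true_and] at hd0
  -- the boundary graph
  let H : SimpleGraph V :=
    { Adj := fun a b => ∃ h : G.Adj a b, bd R S ⟨(a, b), h⟩ ≠ 0
      symm := ⟨fun a b ⟨h, h'⟩ => ⟨h.symm, by
        have := bd_symm R S ⟨(a, b), h⟩
        rw [show (⟨(b, a), h.symm⟩ : G.Dart) = (⟨(a, b), h⟩ : G.Dart).symm from rfl, this]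
        exact neg_ne_zero.2 h'⟩⟩
      loopless := ⟨fun a ⟨h, _⟩ => G.loopless.irrefl a h⟩ }
  have hHG : H ≤ G := fun a b ⟨h, _⟩ => h
  have hbd0 : bd R S d0 = 1 := by
    rw [bd, if_pos hd0.1, if_neg hd0.2]; norm_num
  have hadj : H.Adj d0.fst d0.snd := ⟨d0.adj, by
    rw [show (⟨(d0.fst, d0.snd), d0.adj⟩ : G.Dart) = d0 from rfl, hbd0]; norm_num⟩
  -- not a bridge
  have hreach : (H.deleteEdges {s(d0.fst, d0.snd)}).Reachable d0.fst d0.snd := by
    by_contra hno
    set X : Finset V := univ.filter fun x => (H.deleteEdges {s(d0.fst, d0.snd)}).Reachable d0.fst x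
      with hX
    have h4 := sum_bd_set R S X
    have h5 : ∑ d : G.Dart with d.fst ∈ X ∧ d.snd ∉ X, bd R S d = bd R S d0 := by
      refine Finset.sum_eq_single_of_mem d0 ?_ ?_
      · simp only [mem_filter, mem_univ, true_and, hX]
        exact ⟨SimpleGraph.Reachable.refl _, hno⟩
      · intro d hd hne
        simp only [mem_filter, mem_univ, true_and, hX] at hd
        by_contra h6
        have h7 : H.Adj d.fst d.snd := ⟨d.adj, h6⟩
        by_cases h8 : s(d.fst, d.snd) = s(d0.fst, d0.snd)
        · rcases Sym2.eq_iff.1 h8 with ⟨h9, h10⟩ | ⟨h9, h10⟩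
          · exact hne (SimpleGraph.Dart.ext _ _ (Prod.ext h9 h10))
          · exact hd.2 (by rw [h10])
        · refine hd.2 (hd.1.trans (SimpleGraph.Adj.reachable ?_))
          rw [SimpleGraph.deleteEdges_adj]
          exact ⟨h7, by simpa using h8⟩
    rw [h5, hbd0] at h4
    norm_num at h4
  obtain ⟨u, c, hcyc, -⟩ :=
    SimpleGraph.adj_and_reachable_delete_edges_iff_exists_cycle.1 ⟨hadj, hreach⟩
  have hlen : (g : ℕ∞) ≤ (c.mapLe hHG).length := (SimpleGraph.le_egirth.1 hg) _ _ (hcyc.mapLe hHG)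
  have hlen2 : g ≤ c.length := by
    rw [SimpleGraph.Walk.length_map] at hlen
    exact_mod_cast hlen
  refine hlen2.trans ?_
  rw [← SimpleGraph.Walk.length_edges, ← List.toFinset_card_of_nodup hcyc.edges_nodup, Rot.cut]
  refine (Finset.card_le_card (t := (univ.filter fun d : G.Dart =>
    R.face d ∈ S ∧ R.face d.symm ∉ S).image SimpleGraph.Dart.edge) ?_).trans Finset.card_image_le
  intro e he
  rw [List.mem_toFinset] at he
  have h6 := c.edges_subset_edgeSet he
  induction e using Sym2.ind with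
  | _ a b =>
    rw [SimpleGraph.mem_edgeSet] at h6
    obtain ⟨h7, h8⟩ := h6
    rw [Finset.mem_image]
    rw [bd] at h8
    by_cases h9 : R.face ⟨(a, b), h7⟩ ∈ S
    · by_cases h10 : R.face (⟨(a, b), h7⟩ : G.Dart).symm ∈ S
      · rw [if_pos h9, if_pos h10] at h8
        norm_num at h8
      · exact ⟨⟨(a, b), h7⟩, by simp only [mem_filter, mem_univ, true_and]; exact ⟨h9, h10⟩, rfl⟩
    · by_cases h10 : R.face (⟨(a, b), h7⟩ : G.Dart).symm ∈ S
      · refine ⟨(⟨(a, b), h7⟩ : G.Dart).symm, ?_, ?_⟩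
        · simp only [mem_filter, mem_univ, true_and]
          exact ⟨h10, by rw [SimpleGraph.Dart.symm_symm]; exact h9⟩
        · rw [SimpleGraph.Dart.edge_symm]; rfl
      · rw [if_neg h9, if_neg h10] at h8
        norm_num at h8

end Pool.Agent.Arb392
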