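import Mathlib

/-!
# Minimising an energy on the torus `(ℝ/2ℤ)^V`

For a multigraph `s t : E → V` with positive weights `κ` a point `φ` of the torus minimising
`∑ κ e ‖φ (s e) - φ (t e) - β e‖²` satisfies `‖φ (s e) - φ (t e) - β e‖ ≤ 1 - κ e * R e`, where
`R e` is (at most) the effective resistance of `e`.
-/

namespace Pool.Agent.Arb392

open Finset

section

variable {V E : Type*} [Fintype E] [DecidableEq E]

theorem norm_coe_le (x : ℝ) : ‖(x : AddCircle (2 : ℝ))‖ ≤ |x| := by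
  have h := QuotientAddGroup.norm_mk_le_norm (S := AddSubgroup.zmultiples (2 : ℝ)) (m := x)
  simpa [Real.norm_eq_abs] using h

theorem coe_add_two (x : ℝ) (k : ℤ) :
    ((x + 2 * (k : ℝ) : ℝ) : AddCircle (2 : ℝ)) = (x : AddCircle (2 : ℝ)) := by
  have h : ((2 * (k : ℝ) : ℝ) : AddCircle (2 : ℝ)) = 0 := by
    rw [AddCircle.coe_eq_zero_iff]
    exact ⟨k, by simp [mul_comm]⟩
  rw [AddCircle.coe_add, h, add_zero]

/-- a representative whose absolute value is the norm -/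
theorem exists_rep (x : ℝ) : ∃ k : ℤ, ‖(x : AddCircle (2 : ℝ))‖ = |x + 2 * (k : ℝ)| := by
  refine ⟨-round ((2 : ℝ)⁻¹ * x), ?_⟩
  rw [AddCircle.norm_eq]
  congr 1
  push_cast
  ring

/-- a linear form which is nonnegative up to a quadratic error vanishes -/
theorem lin_zero {a b : ℝ} (h : ∀ u : ℝ, 0 ≤ a * u + b * u ^ 2) : a = 0 := by
  have hb : 0 ≤ |b| + 1 := by positivity
  by_contra ha
  have hb' : 0 < |b| + 1 := by positivity
  have h1 := h (-a / (2 * (|b| + 1)))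
  have h2 : a * (-a / (2 * (|b| + 1))) + b * (-a / (2 * (|b| + 1))) ^ 2
      = a ^ 2 / (2 * (|b| + 1)) * (-1 + b / (2 * (|b| + 1))) := by
    field_simp
  rw [h2] at h1
  have h3 : 0 < a ^ 2 / (2 * (|b| + 1)) := by positivity
  have h4 : b / (2 * (|b| + 1)) < 1 := by
    rw [div_lt_one (by positivity)]
    have := le_abs_self b
    have := abs_nonneg b
    linarith
  nlinarith

theorem torus (s t : E → V) (κ : E → ℝ) (hκ : ∀ e, 0 < κ e) (R : E → ℝ) (h0 : E → V → ℝ)
    (h1 : ∀ e, h0 e (s e) - h0 e (t e) = R e)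
    (h2 : ∀ e, ∑ f, κ f * (h0 e (s f) - h0 e (t f)) ^ 2 ≤ R e) (β : E → AddCircle (2 : ℝ)) :
    ∃ φ : V → AddCircle (2 : ℝ), ∀ e, ‖φ (s e) - φ (t e) - β e‖ ≤ 1 - κ e * R e := by
  classical
  have : Fact ((0 : ℝ) < 2) := ⟨by norm_num⟩
  set F : (V → AddCircle (2 : ℝ)) → ℝ := fun φ =>
    ∑ e, κ e * ‖φ (s e) - φ (t e) - β e‖ ^ 2 with hF
  have hcont : Continuous F := by
    rw [hF]
    refine continuous_finsetSum _ fun e _ => ?_
    refine continuous_const.mul ?_
    have h1 : Continuous fun φ : V → AddCircle (2 : ℝ) => φ (s e) := continuous_apply _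
    have h2 : Continuous fun φ : V → AddCircle (2 : ℝ) => φ (t e) := continuous_apply _
    exact ((h1.sub h2).sub continuous_const).norm.pow 2
  obtain ⟨φ, -, hφ⟩ := isCompact_univ.exists_isMinOn (Set.univ_nonempty) hcont.continuousOn
  have hmin : ∀ ψ, F φ ≤ F ψ := fun ψ => hφ (Set.mem_univ ψ)
  refine ⟨φ, fun e0 => ?_⟩
  -- lifts
  have hl : ∀ v, ∃ x : ℝ, (x : AddCircle (2 : ℝ)) = φ v := fun v => QuotientAddGroup.mk_surjective (φ v)
  choose y hy using hl
  have hlb : ∀ e, ∃ x : ℝ, (x : AddCircle (2 : ℝ)) = β e := fun e =>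
    QuotientAddGroup.mk_surjective (β e)
  choose b hb using hlb
  have hz : ∀ e, ∃ k : ℤ, ‖φ (s e) - φ (t e) - β e‖
      = |y (s e) - y (t e) - b e + 2 * (k : ℝ)| := by
    intro e
    obtain ⟨k, hk⟩ := exists_rep (y (s e) - y (t e) - b e)
    refine ⟨k, ?_⟩
    rw [← hk, AddCircle.coe_sub, AddCircle.coe_sub, hy, hy, hb]
  choose k hk using hz
  set z : E → ℝ := fun e => y (s e) - y (t e) - b e + 2 * (k e : ℝ) with hzdef
  have hFφ : F φ = ∑ e, κ e * z e ^ 2 := by
    rw [hF]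
    refine Finset.sum_congr rfl fun e _ => ?_
    rw [hk e, sq_abs]
  -- the comparison
  have hcomp : ∀ (h : V → ℝ) (m : E → ℤ),
      ∑ e, κ e * z e ^ 2 ≤ ∑ e, κ e * (z e + (h (s e) - h (t e)) + 2 * (m e : ℝ)) ^ 2 := by
    intro h m
    rw [← hFφ]
    refine (hmin (fun v => ((y v + h v : ℝ) : AddCircle (2 : ℝ)))).trans ?_
    rw [hF]
    refine Finset.sum_le_sum fun e _ => ?_
    refine mul_le_mul_of_nonneg_left ?_ (hκ e).le
    have h3 : ((y (s e) + h (s e) : ℝ) : AddCircle (2 : ℝ)) - ((y (t e) + h (t e) : ℝ) : AddCircle (2 : ℝ))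
        - β e
        = ((z e + (h (s e) - h (t e)) + 2 * (m e : ℝ) : ℝ) : AddCircle (2 : ℝ)) := by
      rw [coe_add_two, ← hb, ← AddCircle.coe_sub, ← AddCircle.coe_sub,
        ← coe_add_two (y (s e) + h (s e) - (y (t e) + h (t e)) - b e) (k e)]
      congr 1
      rw [hzdef]
      ring
    rw [h3, ← sq_abs (z e + _ + _)]
    exact pow_le_pow_left₀ (norm_nonneg _) (norm_coe_le _) 2
  -- stationarity
  have hstat : ∀ h : V → ℝ, ∑ e, κ e * z e * (h (s e) - h (t e)) = 0 := by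
    intro h
    have hq : ∀ u : ℝ, 0 ≤ (2 * ∑ e, κ e * z e * (h (s e) - h (t e))) * u
        + (∑ e, κ e * (h (s e) - h (t e)) ^ 2) * u ^ 2 := by
      intro u
      have h4 := hcomp (fun v => u * h v) (fun _ => 0)
      have h5 : ∑ e, κ e * (z e + (u * h (s e) - u * h (t e)) + 2 * ((0 : ℤ) : ℝ)) ^ 2
          = ∑ e, κ e * z e ^ 2 + (2 * ∑ e, κ e * z e * (h (s e) - h (t e))) * u
            + (∑ e, κ e * (h (s e) - h (t e)) ^ 2) * u ^ 2 := by
        rw [Finset.mul_sum, Finset.sum_mul, Finset.sum_mul, ← Finset.sum_add_distrib,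
          ← Finset.sum_add_distrib]
        refine Finset.sum_congr rfl fun e _ => ?_
        push_cast
        ring
      rw [h5] at h4
      linarith
    have h6 := lin_zero hq
    linarith
  -- the jump
  have hjump : ∀ σ : ℤ, (σ : ℝ) ^ 2 = 1 → (σ : ℝ) * z e0 ≤ 1 - κ e0 * R e0 := by
    intro σ hσ
    set c : ℝ := 2 * (σ : ℝ) * κ e0 with hc
    have h4 := hcomp (fun v => c * h0 e0 v) (fun e => if e = e0 then -σ else 0)
    have h5 : ∑ e, κ e * (z e + (c * h0 e0 (s e) - c * h0 e0 (t e))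
          + 2 * (((if e = e0 then -σ else 0 : ℤ)) : ℝ)) ^ 2
        = ∑ e, κ e * z e ^ 2 + c * 2 * ∑ e, κ e * z e * (h0 e0 (s e) - h0 e0 (t e))
          + c ^ 2 * (∑ e, κ e * (h0 e0 (s e) - h0 e0 (t e)) ^ 2)
          + κ e0 * (-4 * (σ : ℝ) * (z e0 + c * R e0) + 4) := by
      have h6 : κ e0 * (-4 * (σ : ℝ) * (z e0 + c * R e0) + 4)
          = ∑ e, (if e = e0 then κ e0 * (-4 * (σ : ℝ) * (z e0 + c * R e0) + 4) else 0) := by
        rw [Finset.sum_ite_eq' Finset.univ e0 (fun _ => κ e0 * (-4 * (σ : ℝ) * (z e0 + c * R e0) + 4))]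
        simp
      rw [h6, Finset.mul_sum, Finset.mul_sum, ← Finset.sum_add_distrib, ← Finset.sum_add_distrib,
        ← Finset.sum_add_distrib]
      refine Finset.sum_congr rfl fun e _ => ?_
      by_cases he : e = e0
      · subst he
        rw [if_pos rfl, if_pos rfl, ← h1 e]
        push_cast
        linear_combination (4 * κ e) * hσ
      · rw [if_neg he, if_neg he]
        push_cast
        ring
    rw [h5, hstat (h0 e0)] at h4
    have h7 := h2 e0
    have h8 : c ^ 2 * (∑ e, κ e * (h0 e0 (s e) - h0 e0 (t e)) ^ 2) ≤ c ^ 2 * R e0 :=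
      mul_le_mul_of_nonneg_left h7 (sq_nonneg _)
    have h9 : 0 ≤ c ^ 2 * R e0 + κ e0 * (-4 * (σ : ℝ) * (z e0 + c * R e0) + 4) := by linarith
    have h10 : c ^ 2 * R e0 + κ e0 * (-4 * (σ : ℝ) * (z e0 + c * R e0) + 4)
        = 4 * κ e0 * (1 - κ e0 * R e0 - (σ : ℝ) * z e0) := by
      rw [hc]
      linear_combination (-4 * κ e0 ^ 2 * R e0) * hσ
    rw [h10] at h9
    have h11 : 0 < 4 * κ e0 := by have := hκ e0; linarith
    have h12 := nonneg_of_mul_nonneg_right h9 h11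
    linarith
  rw [hk e0]
  have hp := hjump 1 (by norm_num)
  have hm := hjump (-1) (by norm_num)
  push_cast at hp hm
  rw [abs_le]
  constructor <;> simp only [hzdef] at hp hm <;> linarith

end

end Pool.Agent.Arb392
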