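import Mathlib

/-!
# The greedy bound

If `a` is dominated by the rank function of the vectors `b e`, then for every nonnegative weight
`x` some independent set has `x`-weight at least `∑ a e * x e`.
The rank function is bounded below by the vertex condition `a (E(U)) ≤ |U| - 1`.
-/

namespace Pool.Agent.Arb392

open Finset

set_option linter.unusedSectionVars false

section

variable {V E : Type*} [Fintype V] [DecidableEq V] [Fintype E] [DecidableEq E]

/-- rank of a set of vectors -/
noncomputable def rk (b : E → V → ℝ) (A : Finset E) : ℕ :=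
  Module.finrank ℝ (Submodule.span ℝ (b '' (A : Set E)))

/-- an independent subset of `A` extends to one with `rk A` elements -/
theorem exists_basis (b : E → V → ℝ) (A F : Finset E) (hFA : F ⊆ A)
    (hF : LinearIndepOn ℝ b (F : Set E)) :
    ∃ F' : Finset E, F ⊆ F' ∧ F' ⊆ A ∧ LinearIndepOn ℝ b (F' : Set E) ∧ F'.card = rk b A := by
  classical
  have hFA' : (F : Set E) ⊆ (A : Set E) := by exact_mod_cast hFA
  obtain ⟨T, hT1, hT2, hT3, hT4⟩ := exists_linearIndepOn_extension hF hFA'
  have hfin : T.Finite := Set.toFinite T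
  refine ⟨hfin.toFinset, ?_, ?_, ?_, ?_⟩
  · intro e he
    rw [Set.Finite.mem_toFinset]
    exact hT2 he
  · intro e he
    rw [Set.Finite.mem_toFinset] at he
    exact hT1 he
  · rw [Set.Finite.coe_toFinset]; exact hT4
  · have h1 : Submodule.span ℝ (b '' (A : Set E)) = Submodule.span ℝ (b '' T) := by
      apply le_antisymm
      · rw [Submodule.span_le]; exact hT3
      · exact Submodule.span_mono (Set.image_mono hT1)
    rw [rk, h1]
    have : Fintype T := hfin.fintype
    rw [Set.Finite.card_toFinset]
    have h2 : b '' T = Set.range (fun i : T => b i) := by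
      rw [Set.image_eq_range]
    rw [h2, finrank_span_eq_card (b := fun i : T => b i) hT4]

/-- **greedy bound** -/
theorem greedy (b : E → V → ℝ) (a : E → ℝ) (ha : ∀ A : Finset E, ∑ e ∈ A, a e ≤ rk b A) :
    ∀ (n : ℕ) (A : Finset E), A.card = n → ∀ x : E → ℝ, (∀ e ∈ A, 0 ≤ x e) →
      ∃ F : Finset E, F ⊆ A ∧ LinearIndepOn ℝ b (F : Set E) ∧
        ∑ e ∈ A, a e * x e ≤ ∑ e ∈ F, x e := by
  intro n
  induction n using Nat.strong_induction_on with
  | _ n ih =>
    intro A hA x hx
    rcases A.eq_empty_or_nonempty with rfl | hne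
    · exact ⟨∅, by simp, by simp, by simp⟩
    obtain ⟨e0, he0, hmin⟩ := Finset.exists_min_image A x hne
    set A' := A.filter fun e => x e0 < x e with hA'
    have hsub : A' ⊆ A := Finset.filter_subset _ _
    have hlt : A'.card < n := by
      rw [← hA]
      refine Finset.card_lt_card ⟨hsub, fun h => ?_⟩
      have := h he0
      rw [hA', Finset.mem_filter] at this
      exact lt_irrefl _ this.2
    obtain ⟨F', hF'1, hF'2, hF'3⟩ := ih A'.card hlt A' rfl (fun e => x e - x e0) (fun e he => by
      rw [hA', Finset.mem_filter] at he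
      linarith [he.2])
    obtain ⟨F, hF1, hF2, hF3, hF4⟩ := exists_basis b A F' (hF'1.trans hsub) hF'2
    refine ⟨F, hF2, hF3, ?_⟩
    have h1 : ∑ e ∈ A, a e * x e = x e0 * ∑ e ∈ A, a e + ∑ e ∈ A, a e * (x e - x e0) := by
      rw [Finset.mul_sum, ← Finset.sum_add_distrib]
      exact Finset.sum_congr rfl fun e _ => by ring
    have h2 : ∑ e ∈ A, a e * (x e - x e0) = ∑ e ∈ A', a e * (x e - x e0) := by
      symm
      refine Finset.sum_subset hsub fun e he hne => ?_
      rw [hA', Finset.mem_filter, not_and] at hne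
      have h3 := hmin e he
      have h4 := hne he
      have h5 : x e = x e0 := le_antisymm (not_lt.1 h4) h3
      rw [h5, sub_self, mul_zero]
    have h3 : x e0 * ∑ e ∈ A, a e ≤ x e0 * (F.card : ℝ) := by
      rw [hF4]
      exact mul_le_mul_of_nonneg_left (ha A) (hx e0 he0)
    have h4 : ∑ e ∈ F', (x e - x e0) ≤ ∑ e ∈ F, (x e - x e0) :=
      Finset.sum_le_sum_of_subset_of_nonneg hF1 fun e he _ => by linarith [hmin e (hF2 he)]
    have h5 : ∑ e ∈ F, (x e - x e0) = ∑ e ∈ F, x e - (F.card : ℝ) * x e0 := by
      rw [Finset.sum_sub_distrib, Finset.sum_const, nsmul_eq_mul]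
    rw [h1, h2]
    linarith [mul_comm (x e0) (F.card : ℝ)]

/-- the vector of an edge -/
def bv (s t : E → V) (e : E) (v : V) : ℝ := (if v = s e then 1 else 0) - (if v = t e then 1 else 0)

/-- **the rank is at least what the vertex condition allows** -/
theorem le_rk (s t : E → V) (a : E → ℝ) (h0 : ∀ e, 0 ≤ a e)
    (ha : ∀ U : Finset V, U.Nonempty → ∑ e ∈ univ.filter (fun e => s e ∈ U ∧ t e ∈ U), a e
      ≤ (U.card : ℝ) - 1) (A : Finset E) : ∑ e ∈ A, a e ≤ rk (bv s t) A := by
  classical
  set W := Submodule.span ℝ (bv s t '' (A : Set E)) with hW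
  -- the equivalence relation
  let S : Setoid V :=
    { r := fun u v => (Pi.single u (1 : ℝ) - Pi.single v (1 : ℝ) : V → ℝ) ∈ W
      iseqv := by
        refine ⟨fun u => by simp, fun {u v} h => ?_, fun {u v w} h1 h2 => ?_⟩
        · have := W.neg_mem h
          simpa using this
        · have := W.add_mem h1 h2
          simpa using this }
  let r : V → V := fun v => (Quotient.mk S v).out
  have hr1 : ∀ v, (Pi.single (r v) (1 : ℝ) - Pi.single v (1 : ℝ) : V → ℝ) ∈ W := fun v =>
    Quotient.exact (Quotient.out_eq (Quotient.mk S v))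
  have hr2 : ∀ u v, (Pi.single u (1 : ℝ) - Pi.single v (1 : ℝ) : V → ℝ) ∈ W → r u = r v :=
    fun u v h => by
      show (Quotient.mk S u).out = (Quotient.mk S v).out
      rw [Quotient.sound (s := S) h]
  have hrr : ∀ v, r (r v) = r v := fun v => hr2 _ _ (hr1 v)
  -- edges of `A` stay inside a class
  have hedge : ∀ e ∈ A, r (s e) = r (t e) := by
    intro e he
    refine hr2 _ _ ?_
    have : bv s t e ∈ W := Submodule.subset_span ⟨e, by exact_mod_cast he, rfl⟩
    convert this using 1
    funext v
    simp only [bv, Pi.sub_apply, Pi.single_apply]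
  -- the representatives
  set I : Finset V := univ.image r with hI
  have hsum1 : ∑ e ∈ A, a e = ∑ i ∈ I, ∑ e ∈ A.filter (fun e => r (s e) = i), a e := by
    symm
    exact Finset.sum_fiberwise_of_maps_to (fun e _ => by rw [hI]; exact mem_image_of_mem r (mem_univ _)) a
  have hsum2 : ∀ i ∈ I, ∑ e ∈ A.filter (fun e => r (s e) = i), a e
      ≤ ((univ.filter fun v => r v = i).card : ℝ) - 1 := by
    intro i hi
    refine le_trans ?_ (ha (univ.filter fun v => r v = i) ?_)
    · refine Finset.sum_le_sum_of_subset_of_nonneg ?_ fun e _ _ => h0 e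
      intro e he
      rw [Finset.mem_filter] at he
      simp only [Finset.mem_filter, Finset.mem_univ, true_and]
      exact ⟨he.2, by rw [← hedge e he.1]; exact he.2⟩
    · rw [hI, Finset.mem_image] at hi
      obtain ⟨v, -, hv⟩ := hi
      exact ⟨v, by simp [hv]⟩
  have hsum3 : ∑ i ∈ I, (((univ.filter fun v => r v = i).card : ℝ) - 1)
      = (Fintype.card V : ℝ) - I.card := by
    rw [Finset.sum_sub_distrib, Finset.sum_const, nsmul_eq_mul, mul_one]
    congr 1
    have := Finset.card_eq_sum_card_fiberwise (s := (univ : Finset V)) (t := I) (f := r)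
      (fun v _ => by rw [hI]; exact_mod_cast mem_image_of_mem r (mem_univ v))
    rw [Finset.card_univ] at this
    rw [this]
    push_cast
    rfl
  -- independent vectors in `W`
  have hli : LinearIndependent ℝ (fun v : {v : V // r v ≠ v} =>
      (Pi.single (r v.1) (1 : ℝ) - Pi.single v.1 (1 : ℝ) : V → ℝ)) := by
    rw [Fintype.linearIndependent_iff]
    intro g hg v
    have h1 := congrFun hg v.1
    rw [Finset.sum_apply] at h1
    simp only [Pi.smul_apply, Pi.sub_apply, Pi.single_apply, smul_eq_mul, Pi.zero_apply] at h1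
    rw [Finset.sum_eq_single v] at h1
    · have h2 : v.1 ≠ r v.1 := fun h => v.2 h.symm
      simp only [if_neg h2, if_true] at h1
      linarith
    · intro w _ hw
      have h2 : v.1 ≠ w.1 := fun h => hw (Subtype.ext h.symm)
      have h3 : v.1 ≠ r w.1 := fun h => v.2 (by rw [h]; exact hrr _)
      rw [if_neg h2, if_neg h3]
      ring
    · intro h
      exact absurd (Finset.mem_univ _) h
  have hcard : Fintype.card {v : V // r v ≠ v} ≤ rk (bv s t) A := by
    have h1 : LinearIndependent ℝ (fun v : {v : V // r v ≠ v} =>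
        (⟨(Pi.single (r v.1) (1 : ℝ) - Pi.single v.1 (1 : ℝ) : V → ℝ), hr1 v.1⟩ : W)) := by
      refine LinearIndependent.of_comp W.subtype ?_
      exact hli
    have h2 := h1.fintype_card_le_finrank
    rw [rk]
    exact h2
  have hI2 : I = univ.filter fun v => r v = v := by
    ext v
    rw [hI, Finset.mem_image]
    simp only [Finset.mem_univ, true_and, Finset.mem_filter]
    constructor
    · rintro ⟨w, rfl⟩; exact hrr w
    · intro h; exact ⟨v, h⟩
  have hcard2 : Fintype.card {v : V // r v ≠ v} + I.card = Fintype.card V := by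
    rw [hI2, Fintype.card_subtype, add_comm]
    have := Finset.card_filter_add_card_filter_not (s := (univ : Finset V)) (fun v => r v = v)
    rw [Finset.card_univ] at this
    exact this
  rw [hsum1]
  refine (Finset.sum_le_sum hsum2).trans ?_
  rw [hsum3]
  have h5 : ((Fintype.card {v : V // r v ≠ v} : ℕ) : ℝ) + (I.card : ℝ) = Fintype.card V := by
    exact_mod_cast hcard2
  have h6 : ((Fintype.card {v : V // r v ≠ v} : ℕ) : ℝ) ≤ rk (bv s t) A := by exact_mod_cast hcard
  linarith

end

end Pool.Agent.Arb392
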