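import Mathlib

/-!
# The matrix `1 + ∑ κ e • b e (b e)ᵀ`

Rank one updates, monotonicity of the determinant, and the lower bound
`∏_{e ∈ F} κ e ≤ det (1 + ∑ κ e • b e (b e)ᵀ)` for linearly independent integral vectors.
-/

namespace Pool.Agent.Arb392

open Finset Matrix

set_option linter.unusedSectionVars false

section

variable {V : Type*} [Fintype V] [DecidableEq V]

/-- matrix determinant lemma for a positive definite matrix -/
theorem det_rank_one {N : Matrix V V ℝ} (hN : N.PosDef) (v : V → ℝ) (τ : ℝ) :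
    (N + τ • vecMulVec v v).det = N.det * (1 + τ * (v ⬝ᵥ (N⁻¹ *ᵥ v))) := by
  have hdet : IsUnit N.det := isUnit_iff_ne_zero.2 hN.det_pos.ne'
  have h1 : τ • vecMulVec v v = replicateCol Unit (τ • v) * replicateRow Unit v := by
    rw [← vecMulVec_eq Unit, smul_vecMulVec]
  rw [h1, det_add_replicateCol_mul_replicateRow hdet]
  congr 1
  rw [det_unique, Matrix.add_apply, Matrix.one_apply_eq]
  have h2 : (replicateRow Unit v * N⁻¹ * replicateCol Unit (τ • v)) default default =
      v ⬝ᵥ (N⁻¹ *ᵥ (τ • v)) := by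
    rw [Matrix.mul_assoc]
    simp only [Matrix.mul_apply, replicateRow_apply, replicateCol_apply, dotProduct, mulVec]
  rw [h2, mulVec_smul, dotProduct_smul, smul_eq_mul]

theorem posDef_add_smul {N : Matrix V V ℝ} (hN : N.PosDef) (v : V → ℝ) {τ : ℝ} (hτ : 0 ≤ τ) :
    (N + τ • vecMulVec v v).PosDef := by
  refine hN.add_posSemidef ?_
  have h := posSemidef_vecMulVec_self_star v
  rw [star_trivial] at h
  exact h.smul hτ

theorem det_mono {ι : Type*} [DecidableEq ι] (I : Finset ι) {N : Matrix V V ℝ} (hN : N.PosDef)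
    (v : ι → V → ℝ) (τ : ι → ℝ) (hτ : ∀ i, 0 ≤ τ i) :
    (N + ∑ i ∈ I, τ i • vecMulVec (v i) (v i)).PosDef ∧
      N.det ≤ (N + ∑ i ∈ I, τ i • vecMulVec (v i) (v i)).det := by
  induction I using Finset.induction_on with
  | empty => simpa using hN
  | insert a s has ih =>
    obtain ⟨h1, h2⟩ := ih
    have h3 : N + ∑ i ∈ insert a s, τ i • vecMulVec (v i) (v i)
        = (N + ∑ i ∈ s, τ i • vecMulVec (v i) (v i)) + τ a • vecMulVec (v a) (v a) := by
      rw [Finset.sum_insert has, add_comm (τ a • _), add_assoc]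
    rw [h3]
    refine ⟨posDef_add_smul h1 _ (hτ a), h2.trans ?_⟩
    rw [det_rank_one h1]
    have h4 : 0 ≤ v a ⬝ᵥ ((N + ∑ i ∈ s, τ i • vecMulVec (v i) (v i))⁻¹ *ᵥ v a) := by
      have := h1.inv.posSemidef.dotProduct_mulVec_nonneg (v a)
      simpa using this
    have h5 := h1.det_pos
    have h6 : 0 ≤ τ a * (v a ⬝ᵥ ((N + ∑ i ∈ s, τ i • vecMulVec (v i) (v i))⁻¹ *ᵥ v a)) :=
      mul_nonneg (hτ a) h4
    nlinarith

/-- a positive definite integral matrix has determinant at least one -/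
theorem one_le_det {n : Type*} [Fintype n] [DecidableEq n] (N : Matrix n n ℝ) (hN : N.PosDef)
    (Z : Matrix n n ℤ) (hZ : N = Z.map (fun z => (z : ℝ))) : 1 ≤ N.det := by
  have h1 := hN.det_pos
  have h2 : N.det = (Z.det : ℝ) := by rw [hZ, Int.cast_det]
  rw [h2] at h1 ⊢
  exact_mod_cast h1

variable {E : Type*} [Fintype E] [DecidableEq E]

/-- the massive Laplacian -/
noncomputable def mat (b : E → V → ℝ) (κ : E → ℝ) : Matrix V V ℝ :=
  1 + ∑ e, κ e • vecMulVec (b e) (b e)

theorem mat_posDef (b : E → V → ℝ) (κ : E → ℝ) (hκ : ∀ e, 0 ≤ κ e) : (mat b κ).PosDef :=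
  (det_mono Finset.univ PosDef.one b κ hκ).1

theorem mat_mulVec (b : E → V → ℝ) (κ : E → ℝ) (x : V → ℝ) :
    x ⬝ᵥ (mat b κ *ᵥ x) = x ⬝ᵥ x + ∑ e, κ e * (b e ⬝ᵥ x) ^ 2 := by
  rw [mat, add_mulVec, one_mulVec, dotProduct_add, sum_mulVec, dotProduct_sum]
  congr 1
  refine Finset.sum_congr rfl fun e _ => ?_
  rw [smul_mulVec, dotProduct_smul, vecMulVec_mulVec, dotProduct_smul]
  simp only [smul_eq_mul, MulOpposite.smul_eq_mul_unop, MulOpposite.unop_op]
  rw [dotProduct_comm x (b e)]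
  ring

/-- `det (D⁻¹ + G) ≥ det G` -/
theorem det_diag_add {n : Type*} [Fintype n] [DecidableEq n] (G : Matrix n n ℝ) (hG : G.PosDef)
    (d : n → ℝ) (hd : ∀ i, 0 ≤ d i) : G.det ≤ (G + diagonal d).det := by
  have h := (det_mono Finset.univ hG (fun i : n => Pi.single i (1 : ℝ)) d hd).2
  have h2 : ∑ i, d i • vecMulVec (Pi.single i (1 : ℝ)) (Pi.single i (1 : ℝ)) = diagonal d := by
    ext i j
    rw [Matrix.sum_apply, diagonal_apply]
    simp only [Matrix.smul_apply, vecMulVec_apply, Pi.single_apply, smul_eq_mul]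
    by_cases hij : i = j
    · subst hij
      rw [Finset.sum_eq_single i]
      · simp
      · intro k _ hk
        simp [hk.symm]
      · simp
    · rw [if_neg hij]
      refine Finset.sum_eq_zero fun k _ => ?_
      by_cases hk : i = k
      · subst hk
        simp [Ne.symm hij]
      · simp [hk]
  rwa [h2] at h

/-- **Cauchy–Binet lower bound** -/
theorem prod_le_det (b : E → V → ℝ) (bZ : E → V → ℤ) (hb : ∀ e v, b e v = bZ e v) (κ : E → ℝ)
    (hκ : ∀ e, 0 < κ e) (F : Finset E) (hF : LinearIndependent ℝ fun e : F => b e) :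
    ∏ e ∈ F, κ e ≤ (mat b κ).det := by
  classical
  -- first restrict to `F`
  have h1 : mat b κ = (1 + ∑ e ∈ F, κ e • vecMulVec (b e) (b e))
      + ∑ e ∈ Fᶜ, κ e • vecMulVec (b e) (b e) := by
    rw [mat, add_assoc, Finset.sum_add_sum_compl]
  have h2 := (det_mono F (PosDef.one (n := V) (R := ℝ)) b κ fun e => (hκ e).le).1
  have h3 := (det_mono Fᶜ h2 b κ fun e => (hκ e).le).2
  rw [h1]
  refine le_trans ?_ h3
  -- matrices
  set B : Matrix V F ℝ := Matrix.of fun v e => b e v with hB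
  set D : Matrix F F ℝ := diagonal fun e : F => κ e with hD
  have h4 : (∑ e ∈ F, κ e • vecMulVec (b e) (b e)) = B * (D * Bᵀ) := by
    ext u v
    rw [Matrix.sum_apply, Matrix.mul_apply, ← Finset.sum_coe_sort F]
    refine Finset.sum_congr rfl fun e _ => ?_
    rw [hD, diagonal_mul]
    simp only [Matrix.smul_apply, vecMulVec_apply, smul_eq_mul, hB, Matrix.of_apply,
      transpose_apply]
    ring
  rw [h4, det_one_add_mul_comm]
  have hG : (Bᵀ * B).PosDef := by
    have h5 := PosDef.conjTranspose_mul_self B (by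
      rw [mulVec_injective_iff]
      exact hF)
    rwa [conjTranspose_eq_transpose_of_trivial] at h5
  have hG1 : 1 ≤ (Bᵀ * B).det := by
    refine one_le_det _ hG ((Matrix.of fun (v : V) (e : F) => bZ e v)ᵀ * (Matrix.of fun (v : V) (e : F) => bZ e v)) ?_
    ext i j
    simp only [Matrix.mul_apply, transpose_apply, Matrix.of_apply, Matrix.map_apply, hB, hb]
    push_cast
    rfl
  have hDinv : D * (Bᵀ * B + diagonal fun e : F => (κ e)⁻¹) = 1 + D * Bᵀ * B := by
    rw [Matrix.mul_add, hD, diagonal_mul_diagonal, ← Matrix.mul_assoc, add_comm]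
    congr 1
    rw [← diagonal_one]
    congr 1
    funext e
    exact mul_inv_cancel₀ (hκ e).ne'
  rw [← hDinv, det_mul, hD, det_diagonal]
  have h6 := det_diag_add (Bᵀ * B) hG (fun e : F => (κ e)⁻¹) fun e => (inv_pos.2 (hκ e)).le
  have h7 : ∏ e ∈ F, κ e = ∏ e : F, κ e := (Finset.prod_coe_sort F κ).symm
  rw [h7]
  have h8 : 0 ≤ ∏ e : F, κ e := Finset.prod_nonneg fun e _ => (hκ e).le
  calc ∏ e : F, κ e = (∏ e : F, κ e) * 1 := (mul_one _).symm
    _ ≤ _ := mul_le_mul_of_nonneg_left (hG1.trans h6) h8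

end

end Pool.Agent.Arb392
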