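import Mathlib
import Pool.Agent.Work.MP_392c8e_co_arb.Mass
import Pool.Agent.Work.MP_392c8e_co_arb.Greedy

/-!
# Weights with prescribed leverages

For `a` in the forest polytope and `δ > 0` there are positive weights `κ` with
`κ e * (b e ⬝ᵥ (1 + L)⁻¹ b e) ≥ a e - δ` for all `e`.
-/

namespace Pool.Agent.Arb392

open Finset Matrix

set_option linter.unusedSectionVars false

section

variable {V E : Type*} [Fintype V] [DecidableEq V] [Fintype E] [DecidableEq E]

theorem bv_dot (s t : E → V) (e : E) (y : V → ℝ) : bv s t e ⬝ᵥ y = y (s e) - y (t e) := by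
  simp only [dotProduct, bv, sub_mul, ite_mul, one_mul, zero_mul, Finset.sum_sub_distrib,
    Finset.sum_ite_eq', Finset.mem_univ, if_true]

/-- `a · x ≤ log det` -/
theorem log_det_lower (s t : E → V) (a : E → ℝ) (h0 : ∀ e, 0 ≤ a e)
    (ha : ∀ A : Finset E, ∑ e ∈ A, a e ≤ rk (bv s t) A) (x : E → ℝ) :
    ∑ e, a e * x e ≤ Real.log (mat (bv s t) fun e => Real.exp (x e)).det := by
  set P := univ.filter fun e => 0 ≤ x e with hP
  obtain ⟨F, hF1, hF2, hF3⟩ := greedy (bv s t) a ha P.card P rfl x (fun e he => by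
    rw [hP, Finset.mem_filter] at he
    exact he.2)
  have h1 : ∑ e, a e * x e ≤ ∑ e ∈ P, a e * x e := by
    rw [← Finset.sum_filter_add_sum_filter_not univ (fun e => 0 ≤ x e)]
    have : ∑ e ∈ univ.filter (fun e => ¬ 0 ≤ x e), a e * x e ≤ 0 := by
      refine Finset.sum_nonpos fun e he => ?_
      rw [Finset.mem_filter] at he
      exact mul_nonpos_of_nonneg_of_nonpos (h0 e) (not_le.1 he.2).le
    linarith
  have h2 := prod_le_det (bv s t)
    (fun e v => (if v = s e then 1 else 0) - (if v = t e then 1 else 0))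
    (fun e v => by simp [bv]) (fun e => Real.exp (x e)) (fun e => Real.exp_pos _) F
    (by
      have := hF2
      rw [LinearIndepOn] at this
      exact this)
  rw [← Real.exp_sum] at h2
  have h3 := Real.log_le_log (Real.exp_pos _) h2
  rw [Real.log_exp] at h3
  exact h1.trans (hF3.trans h3)

theorem continuous_mat (b : E → V → ℝ) :
    Continuous fun x : E → ℝ => (mat b fun e => Real.exp (x e)).det := by
  refine Continuous.matrix_det ?_
  unfold mat
  refine continuous_const.add (continuous_finsetSum _ fun e _ => ?_)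
  exact (Real.continuous_exp.comp (continuous_apply e)).smul continuous_const

/-- changing one coordinate -/
theorem mat_update (b : E → V → ℝ) (x : E → ℝ) (e0 : E) (u : ℝ) :
    (mat b fun e => Real.exp ((x + Pi.single e0 u : E → ℝ) e)) = (mat b fun e => Real.exp (x e))
      + (Real.exp (x e0) * (Real.exp u - 1)) • vecMulVec (b e0) (b e0) := by
  unfold mat
  rw [add_assoc]
  congr 1
  have h1 : (Real.exp (x e0) * (Real.exp u - 1)) • vecMulVec (b e0) (b e0)
      = ∑ e, (if e = e0 then (Real.exp (x e0) * (Real.exp u - 1)) • vecMulVec (b e0) (b e0) else 0) := by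
    rw [Finset.sum_ite_eq' univ e0 (fun _ => (Real.exp (x e0) * (Real.exp u - 1)) • vecMulVec (b e0) (b e0))]
    simp
  rw [h1, ← Finset.sum_add_distrib]
  refine Finset.sum_congr rfl fun e _ => ?_
  by_cases he : e = e0
  · subst he
    rw [if_pos rfl, ← add_smul]
    congr 1
    show Real.exp (x e + (Pi.single e u : E → ℝ) e) = _
    rw [Pi.single_eq_same, Real.exp_add]
    ring
  · rw [if_neg he, add_zero]
    show Real.exp (x e + (Pi.single e0 u : E → ℝ) e) • _ = _
    rw [Pi.single_eq_of_ne he, add_zero]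

theorem exists_weights (s t : E → V) (a : E → ℝ) (h0 : ∀ e, 0 ≤ a e)
    (ha : ∀ A : Finset E, ∑ e ∈ A, a e ≤ rk (bv s t) A) {δ : ℝ} (hδ : 0 < δ) :
    ∃ κ : E → ℝ, (∀ e, 0 < κ e) ∧
      ∀ e, a e - δ ≤ κ e * (bv s t e ⬝ᵥ ((mat (bv s t) κ)⁻¹ *ᵥ bv s t e)) := by
  classical
  set b := bv s t with hb
  set D : (E → ℝ) → ℝ := fun x => (mat b fun e => Real.exp (x e)).det with hD
  have hpd : ∀ x : E → ℝ, (mat b fun e => Real.exp (x e)).PosDef := fun x =>
    mat_posDef b _ fun e => (Real.exp_pos _).le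
  have hDpos : ∀ x, 0 < D x := fun x => (hpd x).det_pos
  have hDlow : ∀ x : E → ℝ, ∑ e, a e * x e ≤ Real.log (D x) := fun x => log_det_lower s t a h0 ha x
  set C0 : ℝ := Real.log (D 0) with hC0
  have hC0' : 0 ≤ C0 := by
    have := hDlow 0
    simpa using this
  -- the parameter
  set ε : ℝ := δ ^ 2 / (16 * (C0 + 1)) with hε
  have hε0 : 0 < ε := by positivity
  set G : (E → ℝ) → ℝ := fun x => Real.log (D x) - ∑ e, a e * x e + ε * ∑ e, x e ^ 2 with hG
  have hGcont : Continuous G := by
    rw [hG]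
    refine ((continuous_mat b).log fun x => (hDpos x).ne').sub ?_ |>.add ?_
    · exact continuous_finsetSum _ fun e _ => continuous_const.mul (continuous_apply e)
    · exact continuous_const.mul (continuous_finsetSum _ fun e _ => (continuous_apply e).pow 2)
  have hGlow : ∀ x, ε * ∑ e, x e ^ 2 ≤ G x := fun x => by
    have := hDlow x
    simp only [hG]
    linarith
  -- minimise on a big box
  set r : ℝ := C0 / ε + 2 with hr
  have hr0 : 0 ≤ r := by positivity
  obtain ⟨x, hxK, hx⟩ := (isCompact_closedBall (0 : E → ℝ) r).exists_isMinOn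
    ⟨0, Metric.mem_closedBall_self hr0⟩ hGcont.continuousOn
  have hG0 : G 0 = C0 := by
    simp only [hG, Pi.zero_apply, mul_zero, Finset.sum_const_zero, sub_zero]
    simp [hC0]
  have hxle : G x ≤ C0 := by
    rw [← hG0]
    exact hx (Metric.mem_closedBall_self hr0)
  have hxsq : ∀ e, x e ^ 2 ≤ C0 / ε := fun e => by
    rw [le_div_iff₀ hε0]
    have h1 : x e ^ 2 ≤ ∑ e, x e ^ 2 :=
      Finset.single_le_sum (f := fun e => x e ^ 2) (fun e _ => sq_nonneg _) (Finset.mem_univ e)
    have h2 := hGlow x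
    nlinarith
  have hxabs : ∀ e, |x e| ≤ C0 / ε + 1 := fun e => by
    have h1 := hxsq e
    rw [← sq_abs] at h1
    have h2 : 0 ≤ C0 / ε := by positivity
    by_contra h3
    rw [not_le] at h3
    nlinarith [abs_nonneg (x e)]
  refine ⟨fun e => Real.exp (x e), fun e => Real.exp_pos _, fun e0 => ?_⟩
  set ℓ : ℝ := b e0 ⬝ᵥ ((mat b fun e => Real.exp (x e))⁻¹ *ᵥ b e0) with hℓ
  have hℓ0 : 0 ≤ ℓ := by
    have := (hpd x).inv.posSemidef.dotProduct_mulVec_nonneg (b e0)
    simpa using this
  -- the one-sided derivative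
  have hder : ∀ u : ℝ, 0 < u → u ≤ 1 →
      a e0 ≤ Real.exp (x e0) * ℓ * (1 + u) + 2 * ε * x e0 + ε * u := by
    intro u hu hu1
    have hmem : x + Pi.single e0 u ∈ Metric.closedBall (0 : E → ℝ) r := by
      rw [mem_closedBall_zero_iff, pi_norm_le_iff_of_nonneg hr0]
      intro e
      by_cases he : e = e0
      · subst he
        rw [Pi.add_apply, Pi.single_eq_same, Real.norm_eq_abs]
        have h1 := hxabs e
        have h2 := abs_add_le (x e) u
        rw [abs_of_pos hu] at h2
        rw [hr]; linarith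
      · rw [Pi.add_apply, Pi.single_eq_of_ne he, add_zero, Real.norm_eq_abs]
        have h1 := hxabs e
        rw [hr]; linarith
    have h1 : G x ≤ G (x + Pi.single e0 u) := hx hmem
    have h2 : D (x + Pi.single e0 u) = D x * (1 + Real.exp (x e0) * (Real.exp u - 1) * ℓ) := by
      simp only [hD]
      rw [mat_update, det_rank_one (hpd x)]
    have h3 : 0 ≤ Real.exp (x e0) * (Real.exp u - 1) * ℓ := by
      have : 0 ≤ Real.exp u - 1 := by have := Real.add_one_le_exp u; linarith
      have := Real.exp_pos (x e0)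
      positivity
    have h4 : Real.log (D (x + Pi.single e0 u))
        ≤ Real.log (D x) + Real.exp (x e0) * (Real.exp u - 1) * ℓ := by
      rw [h2, Real.log_mul (hDpos x).ne' (by linarith)]
      have := Real.log_le_sub_one_of_pos (x := 1 + Real.exp (x e0) * (Real.exp u - 1) * ℓ) (by linarith)
      linarith
    have h5 : ∑ e, a e * (x + Pi.single e0 u : E → ℝ) e = ∑ e, a e * x e + a e0 * u := by
      have : ∀ e, a e * (x + Pi.single e0 u : E → ℝ) e = a e * x e + (if e = e0 then a e * u else 0) := by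
        intro e
        by_cases he : e = e0
        · subst he
          rw [if_pos rfl, Pi.add_apply, Pi.single_eq_same]; ring
        · rw [if_neg he, Pi.add_apply, Pi.single_eq_of_ne he]; ring
      simp only [this, Finset.sum_add_distrib, Finset.sum_ite_eq', Finset.mem_univ, if_true]
    have h6 : ∑ e, (x + Pi.single e0 u : E → ℝ) e ^ 2 = ∑ e, x e ^ 2 + (2 * x e0 * u + u ^ 2) := by
      have : ∀ e, (x + Pi.single e0 u : E → ℝ) e ^ 2
          = x e ^ 2 + (if e = e0 then 2 * x e * u + u ^ 2 else 0) := by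
        intro e
        by_cases he : e = e0
        · subst he
          rw [if_pos rfl, Pi.add_apply, Pi.single_eq_same]; ring
        · rw [if_neg he, Pi.add_apply, Pi.single_eq_of_ne he]; ring
      simp only [this, Finset.sum_add_distrib, Finset.sum_ite_eq', Finset.mem_univ, if_true]
    have h7 : Real.exp u - 1 ≤ u * (1 + u) := by
      have h8 := Real.abs_exp_sub_one_sub_id_le (x := u) (by rw [abs_of_pos hu]; exact hu1)
      have h9 := (abs_le.1 h8).2
      nlinarith
    have h8 : a e0 * u ≤ Real.exp (x e0) * ℓ * (u * (1 + u)) + ε * (2 * x e0 * u + u ^ 2) := by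
      have h9 : Real.exp (x e0) * (Real.exp u - 1) * ℓ ≤ Real.exp (x e0) * ℓ * (u * (1 + u)) := by
        have h10 : 0 ≤ Real.exp (x e0) * ℓ := mul_nonneg (Real.exp_pos _).le hℓ0
        nlinarith
      simp only [hG] at h1
      rw [h5, h6] at h1
      nlinarith
    have h9 : a e0 * u ≤ (Real.exp (x e0) * ℓ * (1 + u) + 2 * ε * x e0 + ε * u) * u := by
      nlinarith
    exact le_of_mul_le_mul_right h9 hu
  -- let `u → 0`
  have hlim : a e0 ≤ Real.exp (x e0) * ℓ + 2 * ε * x e0 := by
    refine le_of_forall_pos_le_add fun η hη => ?_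
    set c : ℝ := Real.exp (x e0) * ℓ + ε with hc
    have hc0 : 0 < c := by
      have : 0 ≤ Real.exp (x e0) * ℓ := mul_nonneg (Real.exp_pos _).le hℓ0
      linarith
    have h1 := hder (min 1 (η / c)) (by positivity) (min_le_left _ _)
    have h2 : c * min 1 (η / c) ≤ η := by
      have := mul_le_mul_of_nonneg_left (min_le_right 1 (η / c)) hc0.le
      rwa [mul_div_cancel₀ _ hc0.ne'] at this
    rw [hc] at h2
    linarith
  -- size of `x`
  have hsz : 2 * ε * x e0 ≤ δ := by
    have h1 := hxsq e0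
    have h2 : (2 * ε * x e0) ^ 2 ≤ δ ^ 2 := by
      have h3 : (2 * ε * x e0) ^ 2 = 4 * ε ^ 2 * x e0 ^ 2 := by ring
      rw [h3]
      have h4 : 4 * ε ^ 2 * x e0 ^ 2 ≤ 4 * ε ^ 2 * (C0 / ε) :=
        mul_le_mul_of_nonneg_left h1 (by positivity)
      have h5 : 4 * ε ^ 2 * (C0 / ε) = 4 * C0 * ε := by field_simp
      rw [h5] at h4
      refine h4.trans ?_
      rw [hε]
      rw [mul_div_assoc', div_le_iff₀ (by positivity)]
      nlinarith [sq_nonneg δ]
    exact (abs_le_of_sq_le_sq' h2 hδ.le).2
  linarith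

end

end Pool.Agent.Arb392
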