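import Mathlib
import Pool.Agent.Work.MP_392c8e_co_arb.Torus
import Pool.Agent.Work.MP_392c8e_co_arb.Weights

/-!
# Circular colourings and fractional arboricity

If `a` is in the forest polytope of the multigraph `s t : E → V`, then there is
`φ : V → ℝ/2ℤ` such that the ends of every edge `e` are at distance at least `a e`.
-/

namespace Pool.Agent.Arb392

open Finset Matrix

set_option linter.unusedSectionVars false

section

variable {V E : Type*} [Fintype V] [DecidableEq V] [Fintype E] [DecidableEq E]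

theorem norm_one_circle : ‖((1 : ℝ) : AddCircle (2 : ℝ))‖ = 1 := by
  rw [(AddCircle.norm_coe_eq_abs_iff (p := 2) (x := 1) (by norm_num)).2 (by norm_num)]
  norm_num

/-- the approximate version -/
theorem approx (s t : E → V) (a : E → ℝ) (h0 : ∀ e, 0 ≤ a e)
    (ha : ∀ A : Finset E, ∑ e ∈ A, a e ≤ rk (bv s t) A) (β : E → AddCircle (2 : ℝ))
    {δ : ℝ} (hδ : 0 < δ) :
    ∃ φ : V → AddCircle (2 : ℝ), ∀ e, ‖φ (s e) - φ (t e) - β e‖ ≤ 1 - a e + δ := by
  obtain ⟨κ, hκ, hlev⟩ := exists_weights s t a h0 ha hδ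
  set M := mat (bv s t) κ with hM
  have hpd : M.PosDef := mat_posDef _ _ fun e => (hκ e).le
  have hdet : IsUnit M.det := isUnit_iff_ne_zero.2 hpd.det_pos.ne'
  obtain ⟨φ, hφ⟩ := torus s t κ hκ (fun e => bv s t e ⬝ᵥ (M⁻¹ *ᵥ bv s t e))
    (fun e => M⁻¹ *ᵥ bv s t e) (fun e => by rw [bv_dot]) (fun e => by
      have h1 := mat_mulVec (bv s t) κ (M⁻¹ *ᵥ bv s t e)
      rw [← hM, mulVec_mulVec, mul_nonsing_inv _ hdet, one_mulVec] at h1
      simp only [bv_dot] at h1 ⊢
      rw [dotProduct_comm, bv_dot] at h1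
      have h2 : 0 ≤ (M⁻¹ *ᵥ bv s t e) ⬝ᵥ (M⁻¹ *ᵥ bv s t e) := by
        simp only [dotProduct]
        exact Finset.sum_nonneg fun i _ => mul_self_nonneg _
      linarith) β
  refine ⟨φ, fun e => ?_⟩
  have h1 := hφ e
  have h2 := hlev e
  linarith

/-- **Main theorem, circle version.**  If `a` is dominated by the rank function, then every
family of targets `β` can be approximated within `1 - a`. -/
theorem main_rk (s t : E → V) (a : E → ℝ) (h0 : ∀ e, 0 ≤ a e)
    (ha : ∀ A : Finset E, ∑ e ∈ A, a e ≤ rk (bv s t) A) (β : E → AddCircle (2 : ℝ)) :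
    ∃ φ : V → AddCircle (2 : ℝ), ∀ e, ‖φ (s e) - φ (t e) - β e‖ ≤ 1 - a e := by
  classical
  have : Fact ((0 : ℝ) < 2) := ⟨by norm_num⟩
  set g : (V → AddCircle (2 : ℝ)) → ℝ := fun φ =>
    ∑ e, max (‖φ (s e) - φ (t e) - β e‖ - (1 - a e)) 0 with hg
  have hcont : Continuous g := by
    rw [hg]
    refine continuous_finsetSum _ fun e _ => ?_
    have h1 : Continuous fun φ : V → AddCircle (2 : ℝ) => φ (s e) := continuous_apply _
    have h2 : Continuous fun φ : V → AddCircle (2 : ℝ) => φ (t e) := continuous_apply _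
    exact ((((h1.sub h2).sub continuous_const).norm).sub continuous_const).max continuous_const
  obtain ⟨φ, -, hφ⟩ := isCompact_univ.exists_isMinOn (Set.univ_nonempty) hcont.continuousOn
  have hmin : ∀ ψ, g φ ≤ g ψ := fun ψ => hφ (Set.mem_univ ψ)
  have hle : g φ ≤ 0 := by
    refine le_of_forall_pos_le_add fun η hη => ?_
    set c : ℝ := (Fintype.card E : ℝ) + 1 with hc
    have hc0 : 0 < c := by positivity
    obtain ⟨ψ, hψ⟩ := approx s t a h0 ha β (δ := η / c) (by positivity)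
    refine (hmin ψ).trans ?_
    have h1 : g ψ ≤ ∑ _e : E, η / c := by
      rw [hg]
      refine Finset.sum_le_sum fun e _ => max_le ?_ (by positivity)
      linarith [hψ e]
    refine h1.trans ?_
    rw [Finset.sum_const, Finset.card_univ, nsmul_eq_mul, zero_add, mul_div_assoc', div_le_iff₀ hc0]
    have : (Fintype.card E : ℝ) ≤ c := by rw [hc]; linarith
    nlinarith
  refine ⟨φ, fun e => ?_⟩
  have h1 : max (‖φ (s e) - φ (t e) - β e‖ - (1 - a e)) 0 ≤ g φ := by
    rw [hg]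
    exact Finset.single_le_sum (f := fun e => max (‖φ (s e) - φ (t e) - β e‖ - (1 - a e)) 0)
      (fun e _ => le_max_right _ _) (Finset.mem_univ e)
  have h2 := le_max_left (‖φ (s e) - φ (t e) - β e‖ - (1 - a e)) 0
  linarith

/-- the distance from the antipode -/
theorem le_norm_of_antipode {x : AddCircle (2 : ℝ)} {θ : ℝ}
    (h : ‖x - ((1 : ℝ) : AddCircle (2 : ℝ))‖ ≤ θ) : 1 - θ ≤ ‖x‖ := by
  have h3 := norm_sub_norm_le ((1 : ℝ) : AddCircle (2 : ℝ)) x
  have h4 := norm_sub_rev ((1 : ℝ) : AddCircle (2 : ℝ)) x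
  rw [norm_one_circle] at h3
  linarith

/-- **Main theorem for vectors in the forest polytope.** -/
theorem main (s t : E → V) (a : E → ℝ) (h0 : ∀ e, 0 ≤ a e)
    (ha : ∀ U : Finset V, U.Nonempty → ∑ e ∈ univ.filter (fun e => s e ∈ U ∧ t e ∈ U), a e
      ≤ (U.card : ℝ) - 1) (β : E → AddCircle (2 : ℝ)) :
    ∃ φ : V → AddCircle (2 : ℝ), ∀ e, ‖φ (s e) - φ (t e) - β e‖ ≤ 1 - a e :=
  main_rk s t a h0 (le_rk s t a h0 ha) β

/-- from the circle to `(p, q)`-colourings -/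
theorem exists_colouring {p q : ℕ} (hq : 1 ≤ q) (hpq : 2 * q ≤ p) (φ : V → AddCircle (2 : ℝ)) :
    ∃ c : V → ℕ, (∀ v, c v < p) ∧ ∀ u v, 2 * (q : ℝ) / p ≤ ‖φ u - φ v‖ →
      (q : ℤ) ≤ |(c u : ℤ) - c v| ∧ |(c u : ℤ) - c v| ≤ p - q := by
  have : Fact ((0 : ℝ) < 2) := ⟨by norm_num⟩
  have hp : 0 < p := by omega
  have hp' : (0 : ℝ) < p := by exact_mod_cast hp
  set y : V → ℝ := fun v => (AddCircle.equivIco 2 0 (φ v) : ℝ) with hy
  have hy1 : ∀ v, ((y v : ℝ) : AddCircle (2 : ℝ)) = φ v := fun v => AddCircle.coe_equivIco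
  have hy2 : ∀ v, 0 ≤ y v ∧ y v < 2 := fun v => by
    have := (AddCircle.equivIco 2 0 (φ v)).2
    exact ⟨this.1, by simpa using this.2⟩
  have hf0 : ∀ v, 0 ≤ ⌊(p : ℝ) * y v / 2⌋ := fun v => Int.floor_nonneg.2 (by
    have := (hy2 v).1
    positivity)
  have hfc : ∀ v, ((⌊(p : ℝ) * y v / 2⌋.toNat : ℕ) : ℤ) = ⌊(p : ℝ) * y v / 2⌋ := fun v =>
    Int.toNat_of_nonneg (hf0 v)
  refine ⟨fun v => ⌊(p : ℝ) * y v / 2⌋.toNat, fun v => ?_, ?_⟩
  · have h1 : ⌊(p : ℝ) * y v / 2⌋ < (p : ℤ) := by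
      rw [Int.floor_lt]
      have := (hy2 v).2
      push_cast
      nlinarith
    have h2 := hfc v
    show ⌊(p : ℝ) * y v / 2⌋.toNat < p
    omega
  · have key : ∀ u v, 2 * (q : ℝ) / p ≤ ‖φ u - φ v‖ → y v ≤ y u →
        (q : ℤ) ≤ ⌊(p : ℝ) * y u / 2⌋ - ⌊(p : ℝ) * y v / 2⌋ ∧
          ⌊(p : ℝ) * y u / 2⌋ - ⌊(p : ℝ) * y v / 2⌋ ≤ (p : ℤ) - q := by
      intro u v h hle
      have h1 : φ u - φ v = ((y u - y v : ℝ) : AddCircle (2 : ℝ)) := by
        rw [AddCircle.coe_sub, hy1, hy1]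
      have h2 : ‖φ u - φ v‖ ≤ y u - y v := by
        rw [h1]
        have := norm_coe_le (y u - y v)
        rwa [abs_of_nonneg (by linarith)] at this
      have h3 : ‖φ u - φ v‖ ≤ 2 - (y u - y v) := by
        rw [h1, ← coe_add_two _ (-1)]
        have h4 := norm_coe_le (y u - y v + 2 * ((-1 : ℤ) : ℝ))
        rw [abs_of_nonpos (by push_cast; linarith [(hy2 u).2, (hy2 v).1])] at h4
        push_cast at h4 ⊢
        linarith
      rw [div_le_iff₀ hp'] at h
      have h4 : (q : ℝ) ≤ p * y u / 2 - p * y v / 2 := by nlinarith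
      have h5 : p * y u / 2 - p * y v / 2 ≤ (p : ℝ) - q := by nlinarith
      constructor
      · have h6 : ⌊(p : ℝ) * y v / 2⌋ + (q : ℤ) ≤ ⌊(p : ℝ) * y u / 2⌋ := by
          rw [Int.le_floor]
          push_cast
          have := Int.floor_le ((p : ℝ) * y v / 2)
          linarith
        omega
      · have h6 : ⌊(p : ℝ) * y u / 2⌋ < ⌊(p : ℝ) * y v / 2⌋ + ((p : ℤ) - q) + 1 := by
          rw [Int.floor_lt]
          push_cast
          have := Int.lt_floor_add_one ((p : ℝ) * y v / 2)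
          linarith
        omega
    intro u v h
    simp only [hfc]
    rcases le_total (y v) (y u) with h1 | h1
    · obtain ⟨h2, h3⟩ := key u v h h1
      rw [abs_of_nonneg (by omega)]
      exact ⟨h2, h3⟩
    · rw [norm_sub_rev] at h
      obtain ⟨h2, h3⟩ := key v u h h1
      rw [abs_sub_comm, abs_of_nonneg (by omega)]
      exact ⟨h2, h3⟩

end

end Pool.Agent.Arb392
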