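import Mathlib
import Pool.Agent.Work.MP_392c8e_co.Exact
import Pool.Agent.Work.MP_392c8e_co_arb.Main

/-!
# Combining circular colourings of the classes of a partition
-/

namespace Pool.Agent.Arb392

open Finset Pool.Agent.Sub392

set_option linter.unusedSectionVars false

/-- real representatives realising the norm -/
theorem exists_real_rep (x : AddCircle (2 : ℝ)) :
    ∃ r : ℝ, (r : AddCircle (2 : ℝ)) = x ∧ |r| = ‖x‖ := by
  induction x using QuotientAddGroup.induction_on with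
  | H y =>
    obtain ⟨k, hk⟩ := exists_rep y
    refine ⟨y + 2 * (k : ℝ), ?_, hk.symm⟩
    exact coe_add_two y k

theorem flex (V C : Type) [Fintype V] [DecidableEq V] [Fintype C] [DecidableEq C]
    (G : SimpleGraph V) [DecidableRel G.Adj] (p q : ℕ) (hq : 1 ≤ q) (hpq : 2 * q ≤ p)
    (κ : V → C) (c₀ t : V → ℝ) (ht : ∀ v, 0 ≤ t v)
    (hin : ∀ u v, G.Adj u v → κ u = κ v → ∀ k : ℤ, q + t u + t v ≤ |c₀ u - c₀ v + p * k|)
    (hfree : ∀ v, t v ≠ 0 → #{w | G.Adj v w ∧ κ w ≠ κ v} ≤ 1)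
    (hcap : ∀ u v, G.Adj u v → κ u ≠ κ v → t u + t v ≤ q)
    (h : ∀ U : Finset C, U.Nonempty →
      ∑ d : G.Dart with κ d.fst ≠ κ d.snd ∧ κ d.fst ∈ U ∧ κ d.snd ∈ U, (q - 2 * t d.fst)
        ≤ p * ((#U : ℝ) - 1)) :
    ∃ c : V → ℕ, (∀ v, c v < p) ∧
      ∀ u v, G.Adj u v → (q : ℤ) ≤ |(c u : ℤ) - c v| ∧ |(c u : ℤ) - c v| ≤ p - q := by
  classical
  have hp : 0 < p := by omega
  have hp' : (0 : ℝ) < p := by exact_mod_cast hp
  have hpq' : 2 * (q : ℝ) ≤ p := by exact_mod_cast hpq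
  set θ : ℝ := 1 - 2 * (q : ℝ) / p with hθ
  have hθ0 : 0 ≤ θ := by
    rw [hθ, sub_nonneg, div_le_one hp']
    exact hpq'
  set τ : V → ℝ := fun v => 2 / p * t v with hτ
  have hτ0 : ∀ v, 0 ≤ τ v := fun v => mul_nonneg (by positivity) (ht v)
  set φ0 : V → AddCircle (2 : ℝ) := fun v => ((2 / p * c₀ v : ℝ) : AddCircle (2 : ℝ)) with hφ0
  let E := {e : Up G // κ e.1.fst ≠ κ e.1.snd}
  obtain ⟨ψ, hψ⟩ := main (V := C) (E := E) (fun e => κ e.1.1.fst) (fun e => κ e.1.1.snd)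
    (fun e => 2 / p * (q - t e.1.1.fst - t e.1.1.snd)) (fun e => by
      have := hcap _ _ e.1.1.adj e.2
      exact mul_nonneg (by positivity) (by linarith)) (by
    intro U hU
    have h1 := h U hU
    set g : Up G → ℝ := fun e => if κ e.1.fst ≠ κ e.1.snd ∧ κ e.1.fst ∈ U ∧ κ e.1.snd ∈ U then
      2 * (q - t e.1.fst - t e.1.snd) else 0 with hg
    have h2 : ∑ d : G.Dart with κ d.fst ≠ κ d.snd ∧ κ d.fst ∈ U ∧ κ d.snd ∈ U, (q - 2 * t d.fst)
        = ∑ e : Up G, g e := by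
      rw [sum_filter, sum_dart]
      refine Finset.sum_congr rfl fun e _ => ?_
      have h3 : (e.1.symm).fst = e.1.snd := rfl
      have h4 : (e.1.symm).snd = e.1.fst := rfl
      rw [h3, h4, hg]
      simp only
      by_cases h5 : κ e.1.fst ≠ κ e.1.snd ∧ κ e.1.fst ∈ U ∧ κ e.1.snd ∈ U
      · rw [if_pos h5, if_pos h5, if_pos ⟨h5.1.symm, h5.2.2, h5.2.1⟩]
        ring
      · rw [if_neg h5, if_neg h5, if_neg (fun h6 => h5 ⟨h6.1.symm, h6.2.2, h6.2.1⟩)]
        ring
    have h3 : ∑ e ∈ univ.filter (fun e : E => κ e.1.1.fst ∈ U ∧ κ e.1.1.snd ∈ U),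
        2 / p * (q - t e.1.1.fst - t e.1.1.snd) = 1 / p * ∑ e : Up G, g e := by
      rw [Finset.sum_filter, Finset.mul_sum]
      have h4 : ∑ e : Up G, 1 / (p : ℝ) * g e
          = ∑ e ∈ univ.filter (fun e : Up G => κ e.1.fst ≠ κ e.1.snd), 1 / (p : ℝ) * g e := by
        symm
        refine Finset.sum_subset (Finset.subset_univ _) fun e _ he => ?_
        rw [mem_filter] at he
        rw [hg]
        simp only
        rw [if_neg (fun h6 => he ⟨mem_univ _, h6.1⟩), mul_zero]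
      rw [h4, ← Finset.sum_subtype_eq_sum_filter, Finset.subtype_univ]
      refine Finset.sum_congr rfl fun e _ => ?_
      rw [hg]
      simp only
      by_cases h5 : κ e.1.1.fst ∈ U ∧ κ e.1.1.snd ∈ U
      · rw [if_pos h5, if_pos ⟨e.2, h5⟩]
        ring
      · rw [if_neg h5, if_neg (fun h6 => h5 h6.2), mul_zero]
    rw [h3, ← h2]
    rw [one_div, inv_mul_le_iff₀ hp']
    exact h1) (fun e => ((1 : ℝ) : AddCircle (2 : ℝ)) - φ0 e.1.1.fst + φ0 e.1.1.snd)
  set φ1 : V → AddCircle (2 : ℝ) := fun v => ψ (κ v) + φ0 v with hφ1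
  have h1 : ∀ e : E, ∃ r : ℝ, (r : AddCircle (2 : ℝ))
      = φ1 e.1.1.fst - φ1 e.1.1.snd - ((1 : ℝ) : AddCircle (2 : ℝ)) ∧
      |r| ≤ θ + τ e.1.1.fst + τ e.1.1.snd := by
    intro e
    obtain ⟨r, hr1, hr2⟩ := exists_real_rep
      (φ1 e.1.1.fst - φ1 e.1.1.snd - ((1 : ℝ) : AddCircle (2 : ℝ)))
    refine ⟨r, hr1, ?_⟩
    have h2 := hψ e
    have h3 : ψ (κ e.1.1.fst) - ψ (κ e.1.1.snd) - (((1 : ℝ) : AddCircle (2 : ℝ)) - φ0 e.1.1.fst
        + φ0 e.1.1.snd) = φ1 e.1.1.fst - φ1 e.1.1.snd - ((1 : ℝ) : AddCircle (2 : ℝ)) := by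
      simp only [hφ1]
      abel
    rw [h3] at h2
    rw [hr2]
    refine h2.trans (le_of_eq ?_)
    rw [hθ, hτ]
    ring
  choose r hr1 hr2 using h1
  set D : E → ℝ := fun e => θ + τ e.1.1.fst + τ e.1.1.snd with hD
  have hD0 : ∀ e, 0 ≤ D e := fun e => by
    have := hτ0 e.1.1.fst
    have := hτ0 e.1.1.snd
    rw [hD]
    simp only
    linarith
  set ρ : E → ℝ := fun e => r e / D e with hρ
  have hρ1 : ∀ e, |ρ e| ≤ 1 := by
    intro e
    rw [hρ]
    simp only
    rw [abs_div, abs_of_nonneg (hD0 e)]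
    exact div_le_one_of_le₀ (hr2 e) (hD0 e)
  have hρ2 : ∀ e, ρ e * D e = r e := by
    intro e
    rw [hρ]
    simp only
    by_cases h2 : D e = 0
    · have h3 := hr2 e
      have h4 : θ + τ e.1.1.fst + τ e.1.1.snd = 0 := h2
      rw [h4] at h3
      have h5 : r e = 0 := abs_eq_zero.1 (le_antisymm h3 (abs_nonneg _))
      rw [h2, h5, mul_zero]
    · rw [div_mul_cancel₀ _ h2]
  -- the moves
  set m : V → ℝ := fun v => ∑ e : E, ((if e.1.1.fst = v then -(ρ e * τ v) else 0)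
    + (if e.1.1.snd = v then ρ e * τ v else 0)) with hm
  have huniq : ∀ v, t v ≠ 0 → ∀ e e' : E, (e.1.1.fst = v ∨ e.1.1.snd = v) →
      (e'.1.1.fst = v ∨ e'.1.1.snd = v) → e = e' := by
    intro v hv e e' he he'
    have h2 := hfree v hv
    rw [Finset.card_le_one] at h2
    have key : ∀ e : E, (e.1.1.fst = v ∨ e.1.1.snd = v) → ∃ w,
        w ∈ ({w | G.Adj v w ∧ κ w ≠ κ v} : Finset V) ∧ e.1.1.edge = s(v, w) := by
      intro e he
      rcases he with he | he
      · refine ⟨e.1.1.snd, ?_, ?_⟩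
        · rw [mem_filter]
          refine ⟨mem_univ _, ?_, ?_⟩
          · rw [← he]; exact e.1.1.adj
          · rw [← he]; exact e.2.symm
        · rw [← he]; rfl
      · refine ⟨e.1.1.fst, ?_, ?_⟩
        · rw [mem_filter]
          refine ⟨mem_univ _, ?_, ?_⟩
          · rw [← he]; exact e.1.1.adj.symm
          · rw [← he]; exact e.2
        · rw [← he]; exact Sym2.eq_swap
    obtain ⟨w, hw, hw2⟩ := key e he
    obtain ⟨w', hw', hw2'⟩ := key e' he'
    have h3 := h2 w hw w' hw'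
    have h4 : e.1.1.edge = e'.1.1.edge := by rw [hw2, hw2', h3]
    rcases SimpleGraph.dart_edge_eq_iff _ _ |>.1 h4 with h5 | h5
    · exact Subtype.ext (Subtype.ext h5)
    · exfalso
      have h6 := e.1.2
      have h7 := e'.1.2
      rw [h5] at h6
      have h8 : (e'.1.1.symm).fst = e'.1.1.snd := rfl
      have h9 : (e'.1.1.symm).snd = e'.1.1.fst := rfl
      rw [h8, h9] at h6
      omega
  have hτt : ∀ v, t v = 0 → τ v = 0 := fun v hv => by rw [hτ]; simp only; rw [hv, mul_zero]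
  have hne : ∀ e : E, e.1.1.fst ≠ e.1.1.snd := fun e => e.1.1.adj.ne
  have hmfst : ∀ e : E, m e.1.1.fst = -(ρ e * τ e.1.1.fst) := by
    intro e
    by_cases hv : t e.1.1.fst = 0
    · rw [hm]
      simp only [hτt _ hv, mul_zero, neg_zero, ite_self, add_zero, sum_const_zero]
    · rw [hm]
      simp only
      rw [Finset.sum_eq_single e]
      · rw [if_pos rfl, if_neg (hne e).symm, add_zero]
      · intro e' _ he'
        rw [if_neg, if_neg, add_zero]
        · exact fun h9 => he' (huniq _ hv e' e (Or.inr h9) (Or.inl rfl))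
        · exact fun h9 => he' (huniq _ hv e' e (Or.inl h9) (Or.inl rfl))
      · exact fun h9 => absurd (mem_univ _) h9
  have hmsnd : ∀ e : E, m e.1.1.snd = ρ e * τ e.1.1.snd := by
    intro e
    by_cases hv : t e.1.1.snd = 0
    · rw [hm]
      simp only [hτt _ hv, mul_zero, neg_zero, ite_self, add_zero, sum_const_zero]
    · rw [hm]
      simp only
      rw [Finset.sum_eq_single e]
      · rw [if_pos rfl, if_neg (hne e), zero_add]
      · intro e' _ he'
        rw [if_neg, if_neg, add_zero]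
        · exact fun h9 => he' (huniq _ hv e' e (Or.inr h9) (Or.inr rfl))
        · exact fun h9 => he' (huniq _ hv e' e (Or.inl h9) (Or.inr rfl))
      · exact fun h9 => absurd (mem_univ _) h9
  have hmabs : ∀ v, |m v| ≤ τ v := by
    intro v
    by_cases h2 : ∃ e : E, e.1.1.fst = v ∨ e.1.1.snd = v
    · obtain ⟨e, he⟩ := h2
      rcases he with rfl | rfl
      · rw [hmfst, abs_neg, abs_mul, abs_of_nonneg (hτ0 _)]
        have := hρ1 e
        have := hτ0 e.1.1.fst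
        nlinarith
      · rw [hmsnd, abs_mul, abs_of_nonneg (hτ0 _)]
        have := hρ1 e
        have := hτ0 e.1.1.snd
        nlinarith
    · push Not at h2
      have h3 : m v = 0 := by
        rw [hm]
        simp only
        refine Finset.sum_eq_zero fun e _ => ?_
        rw [if_neg (h2 e).1, if_neg (h2 e).2, add_zero]
      rw [h3, abs_zero]
      exact hτ0 v
  set φ : V → AddCircle (2 : ℝ) := fun v => φ1 v + ((m v : ℝ) : AddCircle (2 : ℝ)) with hφ
  have houter : ∀ e : E, 2 * (q : ℝ) / p ≤ ‖φ e.1.1.fst - φ e.1.1.snd‖ := by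
    intro e
    have h2 : ‖φ e.1.1.fst - φ e.1.1.snd - ((1 : ℝ) : AddCircle (2 : ℝ))‖ ≤ θ := by
      have h3 : φ e.1.1.fst - φ e.1.1.snd - ((1 : ℝ) : AddCircle (2 : ℝ))
          = ((ρ e * θ : ℝ) : AddCircle (2 : ℝ)) := by
        have h4 : φ e.1.1.fst - φ e.1.1.snd - ((1 : ℝ) : AddCircle (2 : ℝ))
            = (r e : AddCircle (2 : ℝ)) + ((m e.1.1.fst - m e.1.1.snd : ℝ) : AddCircle (2 : ℝ)) := by
          rw [hr1, AddCircle.coe_sub]
          simp only [hφ]
          abel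
        rw [h4, ← AddCircle.coe_add, hmfst, hmsnd, ← hρ2 e]
        congr 1
        rw [hD]
        ring
      rw [h3]
      refine (norm_coe_le _).trans ?_
      rw [abs_mul, abs_of_nonneg hθ0]
      have := hρ1 e
      nlinarith
    have h3 := le_norm_of_antipode h2
    rw [hθ, sub_sub_cancel] at h3
    exact h3
  have hinner : ∀ u v, G.Adj u v → κ u = κ v → 2 * (q : ℝ) / p ≤ ‖φ u - φ v‖ := by
    intro u v huv hκ
    have h2 : φ u - φ v = ((2 / p * c₀ u - 2 / p * c₀ v + (m u - m v) : ℝ) : AddCircle (2 : ℝ)) := by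
      rw [AddCircle.coe_add, AddCircle.coe_sub, AddCircle.coe_sub]
      simp only [hφ, hφ1, hφ0, hκ]
      abel
    rw [h2]
    obtain ⟨k, hk⟩ := exists_rep (2 / p * c₀ u - 2 / p * c₀ v + (m u - m v))
    rw [hk]
    have h3 := hin u v huv hκ k
    have h4 : |2 / p * c₀ u - 2 / p * c₀ v + 2 * (k : ℝ)| = 2 / p * |c₀ u - c₀ v + p * k| := by
      have h5 : 2 / p * c₀ u - 2 / p * c₀ v + 2 * (k : ℝ) = 2 / p * (c₀ u - c₀ v + p * k) := by
        field_simp
      rw [h5, abs_mul, abs_of_pos (by positivity)]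
    have h5 : 2 / (p : ℝ) * (q + t u + t v) ≤ 2 / p * |c₀ u - c₀ v + p * k| :=
      mul_le_mul_of_nonneg_left h3 (by positivity)
    rw [← h4] at h5
    have h6 : |2 / p * c₀ u - 2 / p * c₀ v + 2 * (k : ℝ)| ≤
        |2 / p * c₀ u - 2 / p * c₀ v + (m u - m v) + 2 * (k : ℝ)| + |m u| + |m v| := by
      have h7 : 2 / p * c₀ u - 2 / p * c₀ v + 2 * (k : ℝ) =
          (2 / p * c₀ u - 2 / p * c₀ v + (m u - m v) + 2 * (k : ℝ)) - m u + m v := by ring
      calc |2 / p * c₀ u - 2 / p * c₀ v + 2 * (k : ℝ)|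
          = |(2 / p * c₀ u - 2 / p * c₀ v + (m u - m v) + 2 * (k : ℝ)) - m u + m v| := by rw [← h7]
        _ ≤ |(2 / p * c₀ u - 2 / p * c₀ v + (m u - m v) + 2 * (k : ℝ)) - m u| + |m v| :=
            abs_add_le _ _
        _ ≤ _ := by
            have := abs_sub (2 / p * c₀ u - 2 / p * c₀ v + (m u - m v) + 2 * (k : ℝ)) (m u)
            linarith
    have h7 := hmabs u
    have h8 := hmabs v
    have h9 : 2 / (p : ℝ) * (q + t u + t v) = 2 * (q : ℝ) / p + τ u + τ v := by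
      rw [hτ]; ring
    linarith
  obtain ⟨c, hc1, hc2⟩ := exists_colouring hq hpq φ
  refine ⟨c, hc1, fun u v huv => hc2 u v ?_⟩
  by_cases hκ : κ u = κ v
  · exact hinner u v huv hκ
  · rcases up_or (⟨(u, v), huv⟩ : G.Dart) with h2 | h2
    · exact houter ⟨⟨⟨(u, v), huv⟩, h2⟩, hκ⟩
    · rw [norm_sub_rev]
      exact houter ⟨⟨(⟨(u, v), huv⟩ : G.Dart).symm, h2⟩, fun h3 => hκ h3.symm⟩

end Pool.Agent.Arb392
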