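import Mathlib
import Pool.Agent.Work.MP_392c8e_co_arb.Flex

/-!
# The critical form: dense unions of classes only have to be colourable
-/

namespace Pool.Agent.Arb392

open Finset Pool.Agent.Sub392

set_option linter.unusedSectionVars false

section

variable {V C : Type} [Fintype V] [DecidableEq V] [Fintype C] [DecidableEq C]
  {G : SimpleGraph V} [DecidableRel G.Adj]

/-- the weight of a set of classes -/
noncomputable def wt (G : SimpleGraph V) [DecidableRel G.Adj] (q : ℕ) (t : V → ℝ) (κ : V → C)
    (U : Finset C) : ℝ :=
  ∑ d : G.Dart with κ d.fst ≠ κ d.snd ∧ κ d.fst ∈ U ∧ κ d.snd ∈ U, (q - 2 * t d.fst)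

/-- merging the classes in `U` -/
def merge (κ : V → C) (U : Finset C) (a : C) (v : V) : C := if κ v ∈ U then a else κ v

theorem merge_mem {κ : V → C} {U : Finset C} {a : C} {v : V} (h : κ v ∈ U) :
    merge κ U a v = a := if_pos h

theorem merge_not_mem {κ : V → C} {U : Finset C} {a : C} {v : V} (h : κ v ∉ U) :
    merge κ U a v = κ v := if_neg h

/-- the weight of a set containing the merged class -/
theorem wt_merge_mem (q : ℕ) (t : V → ℝ) (κ : V → C) {U : Finset C} {a : C} (ha : a ∈ U)
    (U' : Finset C) (hU' : a ∈ U') :
    wt G q t κ ((U' \ U) ∪ U) = wt G q t (merge κ U a) U' + wt G q t κ U := by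
  classical
  rw [wt, wt, wt, Finset.sum_filter, Finset.sum_filter, Finset.sum_filter, ← Finset.sum_add_distrib]
  refine Finset.sum_congr rfl fun d _ => ?_
  by_cases h1 : κ d.fst ∈ U <;> by_cases h2 : κ d.snd ∈ U
  · rw [merge_mem h1, merge_mem h2]
    simp [h1, h2, hU']
  · rw [merge_mem h1, merge_not_mem h2]
    have h3 : κ d.fst ≠ κ d.snd := fun h => h2 (h ▸ h1)
    have h4 : a ≠ κ d.snd := fun h => h2 (h ▸ ha)
    simp [h1, h2, h3, h4, hU']
  · rw [merge_not_mem h1, merge_mem h2]
    have h3 : κ d.fst ≠ κ d.snd := fun h => h1 (h ▸ h2)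
    have h4 : κ d.fst ≠ a := fun h => h1 (h ▸ ha)
    simp [h1, h2, h3, h4, hU']
  · rw [merge_not_mem h1, merge_not_mem h2]
    simp [h1, h2]

/-- the weight of a set not containing the merged class -/
theorem wt_merge_not_mem (q : ℕ) (t : V → ℝ) (κ : V → C) {U : Finset C} {a : C} (ha : a ∈ U)
    (U' : Finset C) (hU' : a ∉ U') :
    wt G q t κ (U' \ U) = wt G q t (merge κ U a) U' := by
  classical
  rw [wt, wt, Finset.sum_filter, Finset.sum_filter]
  refine Finset.sum_congr rfl fun d _ => ?_
  by_cases h1 : κ d.fst ∈ U <;> by_cases h2 : κ d.snd ∈ U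
  · rw [merge_mem h1, merge_mem h2]
    simp [h1, h2, hU']
  · rw [merge_mem h1, merge_not_mem h2]
    simp [h1, h2, hU']
  · rw [merge_not_mem h1, merge_mem h2]
    simp [h1, h2, hU']
  · rw [merge_not_mem h1, merge_not_mem h2]
    simp [h1, h2]

theorem crit (p q : ℕ) (hq : 1 ≤ q) (hpq : 2 * q ≤ p) (t : V → ℝ) (ht : ∀ v, 0 ≤ t v) (n : ℕ) :
    ∀ κ : V → C, (univ.image κ).card ≤ n →
    (∀ v, t v ≠ 0 → #{w | G.Adj v w ∧ κ w ≠ κ v} ≤ 1) →
    (∀ u v, G.Adj u v → κ u ≠ κ v → t u + t v ≤ q) →
    (∀ U : Finset C, U.Nonempty → (#U = 1 ∨ p * ((#U : ℝ) - 1) < wt G q t κ U) →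
      ∃ c₀ : V → ℝ, ∀ u v, G.Adj u v → κ u ∈ U → κ v ∈ U →
        ∀ k : ℤ, q + t u + t v ≤ |c₀ u - c₀ v + p * k|) →
    ∃ c : V → ℕ, (∀ v, c v < p) ∧
      ∀ u v, G.Adj u v → (q : ℤ) ≤ |(c u : ℤ) - c v| ∧ |(c u : ℤ) - c v| ≤ p - q := by
  classical
  induction n with
  | zero =>
    intro κ hn _ _ _
    have h1 : IsEmpty V := ⟨fun v => by
      have : κ v ∈ univ.image κ := Finset.mem_image_of_mem _ (Finset.mem_univ _)
      rw [Finset.card_eq_zero.1 (Nat.le_zero.1 hn)] at this
      exact absurd this (Finset.notMem_empty _)⟩
    exact ⟨fun _ => 0, fun v => h1.elim v, fun v => h1.elim v⟩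
  | succ n ih =>
    intro κ hn hfree hcap hin
    by_cases h : ∀ U : Finset C, U.Nonempty → wt G q t κ U ≤ p * ((#U : ℝ) - 1)
    · -- apply the flexible theorem
      have h1 : ∀ a : C, ∃ c₀ : V → ℝ, ∀ u v, G.Adj u v → κ u = a → κ v = a →
          ∀ k : ℤ, q + t u + t v ≤ |c₀ u - c₀ v + p * k| := by
        intro a
        obtain ⟨c₀, hc⟩ := hin {a} (Finset.singleton_nonempty a) (Or.inl (Finset.card_singleton a))
        exact ⟨c₀, fun u v huv hu hv => hc u v huv (by simp [hu]) (by simp [hv])⟩
      choose f hf using h1
      exact flex V C G p q hq hpq κ (fun v => f (κ v) v) t ht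
        (fun u v huv huv' k => by
          have := hf (κ u) u v huv rfl huv'.symm k
          rw [← huv']
          exact this) hfree hcap h
    · push Not at h
      obtain ⟨U, hUne, hU⟩ := h
      obtain ⟨cU, hcU⟩ := hin U hUne (Or.inr hU)
      -- only the used labels matter
      set U1 : Finset C := U.filter fun a => a ∈ univ.image κ with hU1
      have hw1 : wt G q t κ U1 = wt G q t κ U := by
        rw [wt, wt]
        refine Finset.sum_congr ?_ fun _ _ => rfl
        ext d
        simp only [mem_filter, mem_univ, true_and, hU1]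
        have h1 : κ d.fst ∈ univ.image κ := Finset.mem_image_of_mem _ (Finset.mem_univ _)
        have h2 : κ d.snd ∈ univ.image κ := Finset.mem_image_of_mem _ (Finset.mem_univ _)
        tauto
      have hcard1 : (#U1 : ℝ) ≤ #U := by exact_mod_cast Finset.card_filter_le _ _
      have hp0 : (0 : ℝ) ≤ p := Nat.cast_nonneg p
      have hwU1 : p * ((#U1 : ℝ) - 1) < wt G q t κ U1 := by
        rw [hw1]
        refine lt_of_le_of_lt ?_ hU
        nlinarith
      have hU1card : 2 ≤ #U1 := by
        by_contra h1
        have h2 : wt G q t κ U1 = 0 := by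
          rw [wt]
          refine Finset.sum_eq_zero fun d hd => ?_
          exfalso
          simp only [mem_filter, mem_univ, true_and] at hd
          have h3 : 1 < #U1 := Finset.one_lt_card.2 ⟨_, hd.2.1, _, hd.2.2, hd.1⟩
          omega
        have h3 : (0 : ℝ) < wt G q t κ U := by
          refine lt_of_le_of_lt ?_ hU
          have : (1 : ℝ) ≤ #U := by exact_mod_cast hUne.card_pos
          nlinarith
        rw [← hw1, h2] at h3
        exact lt_irrefl _ h3
      obtain ⟨a, ha⟩ : U1.Nonempty := Finset.card_pos.1 (by omega)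
      have hcU1 : ∀ u v, G.Adj u v → κ u ∈ U1 → κ v ∈ U1 →
          ∀ k : ℤ, q + t u + t v ≤ |cU u - cU v + p * k| := fun u v huv hu hv =>
        hcU u v huv (Finset.mem_filter.1 hu).1 (Finset.mem_filter.1 hv).1
      refine ih (merge κ U1 a) ?_ ?_ ?_ ?_
      · -- fewer classes
        obtain ⟨b, hb, hba⟩ : ∃ b ∈ U1, b ≠ a := by
          obtain ⟨x, hx, y, hy, hxy⟩ := Finset.one_lt_card.1 (show 1 < #U1 by omega)
          by_cases hxa : x = a
          · exact ⟨y, hy, fun h => hxy (hxa.trans h.symm)⟩
          · exact ⟨x, hx, hxa⟩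
        have h1 : univ.image (merge κ U1 a) ⊂ univ.image κ := by
          refine Finset.ssubset_iff_subset_ne.2 ⟨?_, ?_⟩
          · intro x hx
            obtain ⟨v, -, rfl⟩ := Finset.mem_image.1 hx
            by_cases h2 : κ v ∈ U1
            · rw [merge_mem h2]
              exact (Finset.mem_filter.1 ha).2
            · rw [merge_not_mem h2]
              exact Finset.mem_image_of_mem _ (Finset.mem_univ _)
          · intro h2
            have h3 : b ∈ univ.image (merge κ U1 a) := by
              rw [h2]
              exact (Finset.mem_filter.1 hb).2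
            obtain ⟨v, -, hv⟩ := Finset.mem_image.1 h3
            by_cases h4 : κ v ∈ U1
            · rw [merge_mem h4] at hv
              exact hba hv.symm
            · rw [merge_not_mem h4] at hv
              exact h4 (hv ▸ hb)
        have h2 := Finset.card_lt_card h1
        omega
      · intro v hv
        refine le_trans (Finset.card_le_card ?_) (hfree v hv)
        intro w hw
        simp only [mem_filter, mem_univ, true_and] at hw ⊢
        refine ⟨hw.1, fun h1 => hw.2 ?_⟩
        rw [merge, merge, h1]
      · intro u v huv h1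
        refine hcap u v huv fun h2 => h1 ?_
        rw [merge, merge, h2]
      · intro U' hU'ne hU'
        by_cases haU' : a ∈ U'
        · -- the union contains the merged class
          have h2 : ((U' \ U1) ∪ U1).Nonempty := ⟨a, Finset.mem_union_right _ ha⟩
          have hc1 : (#((U' \ U1) ∪ U1) : ℝ) = #(U' \ U1) + #U1 := by
            rw [Finset.card_union_of_disjoint Finset.sdiff_disjoint]
            push_cast
            ring
          have hc2 : (#(U' \ U1) : ℝ) + 1 ≤ #U' := by
            have : #(U' \ U1) + 1 ≤ #U' := by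
              have h3 : U' \ U1 ⊆ U'.erase a := by
                intro x hx
                rw [Finset.mem_sdiff] at hx
                rw [Finset.mem_erase]
                exact ⟨fun h4 => hx.2 (h4 ▸ ha), hx.1⟩
              have h4 := Finset.card_le_card h3
              rw [Finset.card_erase_of_mem haU'] at h4
              have h5 : 0 < #U' := Finset.card_pos.2 ⟨a, haU'⟩
              omega
            exact_mod_cast this
          have key : p * ((#((U' \ U1) ∪ U1) : ℝ) - 1) < wt G q t κ ((U' \ U1) ∪ U1) := by
            rw [wt_merge_mem q t κ ha U' haU', hc1]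
            have h3 : p * ((#U' : ℝ) - 1) ≤ wt G q t (merge κ U1 a) U' := by
              rcases hU' with h4 | h4
              · rw [h4]
                have h5 : wt G q t (merge κ U1 a) U' = 0 := by
                  rw [wt]
                  refine Finset.sum_eq_zero fun d hd => ?_
                  exfalso
                  simp only [mem_filter, mem_univ, true_and] at hd
                  have h6 : 1 < #U' := Finset.one_lt_card.2 ⟨_, hd.2.1, _, hd.2.2, hd.1⟩
                  omega
                rw [h5]
                push_cast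
                linarith
              · exact h4.le
            nlinarith
          obtain ⟨c₁, hc₁⟩ := hin _ h2 (Or.inr key)
          refine ⟨c₁, fun u v huv hu hv => hc₁ u v huv ?_ ?_⟩
          · by_cases h3 : κ u ∈ U1
            · exact Finset.mem_union_right _ h3
            · rw [merge_not_mem h3] at hu
              exact Finset.mem_union_left _ (Finset.mem_sdiff.2 ⟨hu, h3⟩)
          · by_cases h3 : κ v ∈ U1
            · exact Finset.mem_union_right _ h3
            · rw [merge_not_mem h3] at hv
              exact Finset.mem_union_left _ (Finset.mem_sdiff.2 ⟨hv, h3⟩)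
        · -- it does not
          have hm : ∀ v, merge κ U1 a v ∈ U' → κ v ∈ U' \ U1 := by
            intro v hv
            by_cases h3 : κ v ∈ U1
            · rw [merge_mem h3] at hv
              exact absurd hv haU'
            · rw [merge_not_mem h3] at hv
              exact Finset.mem_sdiff.2 ⟨hv, h3⟩
          by_cases h2 : (U' \ U1).Nonempty
          · have hc2 : (#(U' \ U1) : ℝ) ≤ #U' := by
              exact_mod_cast Finset.card_le_card Finset.sdiff_subset
            have key : #(U' \ U1) = 1 ∨ p * ((#(U' \ U1) : ℝ) - 1) < wt G q t κ (U' \ U1) := by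
              rcases hU' with h4 | h4
              · left
                have h5 := Finset.card_le_card (Finset.sdiff_subset (s := U') (t := U1))
                have h6 := h2.card_pos
                omega
              · right
                rw [wt_merge_not_mem q t κ ha U' haU']
                refine lt_of_le_of_lt ?_ h4
                nlinarith
            obtain ⟨c₁, hc₁⟩ := hin _ h2 key
            exact ⟨c₁, fun u v huv hu hv => hc₁ u v huv (hm u hu) (hm v hv)⟩
          · refine ⟨fun _ => 0, fun u v huv hu hv => ?_⟩
            exact absurd ⟨_, hm u hu⟩ h2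

end

end Pool.Agent.Arb392
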