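import Mathlib
import Pool.Agent.Work.MP_392c8e_co_arb.Girth
import Pool.Agent.Work.MP_392c8e_co_arb.Main
import Pool.Agent.Work.MP_974d84_co_circ.Final

/-!
# Plane graphs of given girth
-/

namespace Pool.Agent.Arb392

open Finset Pool.Agent.Sub392

set_option linter.unusedSectionVars false

/-- real numbers near `±1` are far from `2ℤ` -/
theorem norm_ge {t θ : ℝ} (h1 : 1 - θ ≤ |t|) (h2 : |t| ≤ 1 + θ) :
    1 - θ ≤ ‖(t : AddCircle (2 : ℝ))‖ := by
  obtain ⟨k, hk⟩ := exists_rep t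
  rw [hk]
  by_cases hk0 : k = 0
  · subst hk0
    simpa using h1
  · have h3 : (1 : ℝ) ≤ |(k : ℝ)| := by
      have : (1 : ℤ) ≤ |k| := Int.one_le_abs hk0
      exact_mod_cast this
    have h4 : |2 * (k : ℝ)| ≤ |t + 2 * (k : ℝ)| + |t| := by
      have h5 := abs_sub (t + 2 * (k : ℝ)) t
      rwa [add_sub_cancel_left] at h5
    rw [abs_mul, abs_two] at h4
    linarith

variable {V : Type} [Fintype V] [DecidableEq V] {G : SimpleGraph V} [DecidableRel G.Adj]

theorem cut_le (R : Rot G) (X : Finset R.Face) :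
    R.cut X ≤ (Circ.cut (fun e : Up G => R.face e.1) (fun e : Up G => R.face e.1.symm) X).card := by
  classical
  rw [Rot.cut, Circ.cut, Finset.card_filter, sum_dart, Finset.card_filter]
  refine Finset.sum_le_sum fun e _ => ?_
  by_cases h1 : R.face e.1 ∈ X <;> by_cases h2 : R.face e.1.symm ∈ X <;> simp [h1, h2]

/-- from a flow on the faces to points on the circle -/
theorem circle_of_flow (R : Rot G) (hP : R.Plane) (f : Up G → ℝ)
    (hf : ∀ F, Circ.dv (fun e : Up G => R.face e.1) (fun e : Up G => R.face e.1.symm) f F = 0)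
    (θ : ℝ) (hb : ∀ e, 1 - θ ≤ |f e| ∧ |f e| ≤ 1 + θ) :
    ∃ φ : V → AddCircle (2 : ℝ), ∀ u v, G.Adj u v → 1 - θ ≤ ‖φ u - φ v‖ := by
  classical
  set x : G.Dart → ℝ := fun d =>
    if h : (Fintype.equivFin V d.fst : ℕ) < Fintype.equivFin V d.snd then f ⟨d, h⟩
    else -(f ⟨d.symm, (up_or d).resolve_left h⟩) with hxdef
  have hx1 : ∀ a : Up G, x a.1 = f a := by
    intro a
    rw [hxdef]
    simp only
    rw [dif_pos a.2]
    rfl
  have hx2 : ∀ a : Up G, x a.1.symm = -f a := by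
    intro a
    have ha := a.2
    rw [hxdef]
    simp only
    rw [dif_neg (by
      intro h
      have h' : (Fintype.equivFin V a.1.snd : ℕ) < Fintype.equivFin V a.1.fst := h
      omega)]
    congr 2
  have hx : ∀ d, x d.symm = -x d := by
    intro d
    rcases up_or d with h | h
    · rw [hx2 ⟨d, h⟩, hx1 ⟨d, h⟩]
    · have := hx2 ⟨d.symm, h⟩
      simp only [SimpleGraph.Dart.symm_symm] at this
      rw [this, hx1 ⟨d.symm, h⟩, neg_neg]
  have habs : ∀ d, 1 - θ ≤ |x d| ∧ |x d| ≤ 1 + θ := by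
    intro d
    rcases up_or d with h | h
    · rw [hx1 ⟨d, h⟩]; exact hb _
    · have := hx2 ⟨d.symm, h⟩
      simp only [SimpleGraph.Dart.symm_symm] at this
      rw [this, abs_neg]; exact hb _
  obtain ⟨p, hp⟩ := R.exact hP x hx (by
    intro F
    rw [sum_filter, sum_dart]
    have h1 := hf F
    rw [Circ.dv] at h1
    refine Eq.trans ?_ h1
    refine sum_congr rfl fun a _ => ?_
    rw [hx1, hx2]
    split_ifs <;> simp)
  refine ⟨fun v => (p v : AddCircle (2 : ℝ)), fun u v huv => ?_⟩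
  rw [← AddCircle.coe_sub]
  have h1 := hp ⟨(v, u), huv.symm⟩
  have h2 := habs ⟨(v, u), huv.symm⟩
  simp only at h1
  rw [h1] at h2
  exact norm_ge h2.1 h2.2

/-- **Plane graphs of girth at least `g`.** -/
theorem plane_girth (R : Rot G) (hP : R.Plane) (g : ℕ) (hg2 : 2 ≤ g)
    (hg : (g : ℕ∞) ≤ G.egirth) (p q : ℕ) (hq : 1 ≤ q)
    (hpq : 2 * g * Fintype.card R.Face * q ≤ p * ((g - 2) * Fintype.card R.Face + 2)) :
    ∃ c : V → ℕ, (∀ v, c v < p) ∧
      ∀ u v, G.Adj u v → (q : ℤ) ≤ |(c u : ℤ) - c v| ∧ |(c u : ℤ) - c v| ≤ p - q := by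
  classical
  obtain ⟨k, rfl⟩ := Nat.exists_eq_add_of_le hg2
  set N := Fintype.card R.Face with hN
  have hN1 : 1 ≤ N := by
    by_contra h0
    have h0 : N = 0 := by omega
    obtain ⟨hG, hE⟩ := hP
    have h1 : IsEmpty R.Face := Fintype.card_eq_zero_iff.1 (hN ▸ h0)
    have h2 : IsEmpty G.Dart := ⟨fun d => h1.false (R.face d)⟩
    have h3 : G.edgeFinset = ∅ := by
      rw [Finset.eq_empty_iff_forall_notMem]
      intro e he
      induction e using Sym2.ind with
      | _ a b =>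
        rw [SimpleGraph.mem_edgeFinset, SimpleGraph.mem_edgeSet] at he
        exact h2.false ⟨(a, b), he⟩
    rw [h3, Finset.card_empty] at hE
    have h4 : 1 < Fintype.card V := by omega
    obtain ⟨a, b, hab⟩ := Fintype.one_lt_card_iff.1 h4
    have : Nontrivial V := ⟨⟨a, b, hab⟩⟩
    obtain ⟨c, hc⟩ := hG.preconnected.exists_adj_of_nontrivial a
    exact h2.false ⟨(a, c), hc⟩
  have hpq' : 2 * (2 + k) * N * q ≤ p * (k * N + 2) := by
    have : 2 + k - 2 = k := by omega
    rwa [this] at hpq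
  have hp2 : 2 * q ≤ p := by
    by_contra hlt
    have h1 : p + 1 ≤ 2 * q := by omega
    have h2 : (p + 1) * ((2 + k) * N) ≤ 2 * q * ((2 + k) * N) := Nat.mul_le_mul_right _ h1
    have h3 : p * (k * N + 2) ≤ p * ((2 + k) * N) := Nat.mul_le_mul_left _ (by nlinarith)
    nlinarith
  have hp0 : 0 < p := by omega
  have hgR : (0 : ℝ) < ((2 + k : ℕ) : ℝ) := by positivity
  have hNR : (1 : ℝ) ≤ N := by exact_mod_cast hN1
  set θ : ℝ := 2 / ((2 + k : ℕ) : ℝ) * (1 - 1 / N) with hθ
  have hmain : ∃ φ : V → AddCircle (2 : ℝ), ∀ u v, G.Adj u v → 1 - θ ≤ ‖φ u - φ v‖ := by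
    rcases Nat.lt_or_ge N 2 with h2 | h2
    · -- one face
      have h3 : N = 1 := by omega
      have hθ0 : θ = 0 := by rw [hθ, h3]; norm_num
      refine circle_of_flow R hP (fun _ => 1) ?_ θ ?_
      · intro F
        have h4 : ∀ F', F' = F := by
          have : Subsingleton R.Face := Fintype.card_le_one_iff_subsingleton.1 (by omega)
          exact fun F' => Subsingleton.elim _ _
        rw [Circ.dv]
        refine Finset.sum_eq_zero fun e _ => ?_
        rw [if_pos (h4 _), if_pos (h4 _), sub_self]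
      · intro e
        rw [hθ0]; norm_num
    · obtain ⟨f, hf, hb⟩ := Circ.mainStatement (R.Face) (Up G) (fun e : Up G => R.face e.1)
        (fun e : Up G => R.face e.1.symm) (2 + k) (by omega) (by rw [← hN]; exact h2) (by
          intro X hX1 hX2
          exact (le_cut R hP.1 hg hX1.ne_empty hX2).trans (cut_le R X))
      refine circle_of_flow R hP f (fun F => hf F) θ ?_
      intro e
      have := hb e
      rw [← hN] at this
      exact this
  obtain ⟨φ, hφ⟩ := hmain
  obtain ⟨c, hc1, hc2⟩ := exists_colouring hq hp2 φ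
  refine ⟨c, hc1, fun u v huv => hc2 u v (le_trans ?_ (hφ u v huv))⟩
  have hpR : (0 : ℝ) < p := by exact_mod_cast hp0
  have h1 : (2 : ℝ) * (2 + k) * N * q ≤ p * (k * N + 2) := by exact_mod_cast hpq'
  have h2 : (1 - θ) * (((2 + k : ℕ) : ℝ) * N) = k * N + 2 := by
    rw [hθ]
    push_cast
    field_simp
    ring
  rw [div_le_iff₀ hpR]
  have h3 : 0 < ((2 + k : ℕ) : ℝ) * (N : ℝ) := by positivity
  have h4 : 2 * (q : ℝ) * (((2 + k : ℕ) : ℝ) * N) ≤ (1 - θ) * p * (((2 + k : ℕ) : ℝ) * N) := by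
    have : (1 - θ) * p * (((2 + k : ℕ) : ℝ) * N) = p * ((1 - θ) * (((2 + k : ℕ) : ℝ) * N)) := by ring
    rw [this, h2]
    push_cast
    linarith
  exact le_of_mul_le_mul_right h4 h3

end Pool.Agent.Arb392
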